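import Mathlib
import Pool.Agent.Helper112.PairSieve
import Pool.Agent.Erdos456.Mertens

/-!
# Sieve bound and moments
-/

namespace Pool.Agent.R330.AF

open Finset

/-- the ratio `n / φ(n)` -/
noncomputable def rt (n : ℕ) : ℝ := (n : ℝ) / (Nat.totient n : ℝ)

theorem one_le_rt {n : ℕ} (hn : 1 ≤ n) : 1 ≤ rt n := by
  unfold rt
  have hφ : (0 : ℝ) < Nat.totient n := by exact_mod_cast Nat.totient_pos.mpr hn
  rw [le_div_iff₀ hφ, one_mul]
  exact_mod_cast Nat.totient_le n

theorem rt_nonneg (n : ℕ) : 0 ≤ rt n := by unfold rt; positivity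

theorem rt_mul_le {a b : ℕ} (ha : 1 ≤ a) (hb : 1 ≤ b) : rt (a * b) ≤ rt a * rt b := by
  unfold rt
  have hφa : (0 : ℝ) < Nat.totient a := by exact_mod_cast Nat.totient_pos.mpr ha
  have hφb : (0 : ℝ) < Nat.totient b := by exact_mod_cast Nat.totient_pos.mpr hb
  have h := Nat.totient_super_multiplicative a b
  have h' : (Nat.totient a : ℝ) * Nat.totient b ≤ Nat.totient (a * b) := by exact_mod_cast h
  rw [div_mul_div_comm]
  push_cast
  apply div_le_div_of_nonneg_left (by positivity) (by positivity) h'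

/-- `N / log² N ≥ 1`. -/
theorem log_sq_le {N : ℕ} (hN : 2 ≤ N) : (Real.log N) ^ 2 ≤ N := by
  have h0 : (0 : ℝ) < N := by positivity
  have h1 := Real.add_one_le_exp (Real.log N / 2 - 1)
  have hl : 0 ≤ Real.log N := Real.log_natCast_nonneg N
  have h2 : Real.log N / 2 ≤ Real.exp (Real.log N / 2 - 1) := by linarith
  have h3 : (Real.log N / 2) ^ 2 ≤ (Real.exp (Real.log N / 2 - 1)) ^ 2 :=
    pow_le_pow_left₀ (by positivity) h2 2
  have h4 : (Real.exp (Real.log N / 2 - 1)) ^ 2 = N * Real.exp (-2) := by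
    rw [← Real.exp_nat_mul]
    have : ((2 : ℕ) : ℝ) * (Real.log N / 2 - 1) = Real.log N + (-2) := by push_cast; ring
    rw [this, Real.exp_add, Real.exp_log h0]
  have h5 : Real.exp (-2) ≤ 1 / 4 := by
    rw [Real.exp_neg]
    have : (2 : ℝ) ^ 2 ≤ Real.exp 2 := by
      have h := Real.add_one_le_exp (1 : ℝ)
      have : Real.exp 2 = (Real.exp 1) ^ 2 := by rw [← Real.exp_nat_mul]; norm_num
      rw [this]
      exact pow_le_pow_left₀ (by norm_num) (by linarith) 2
    rw [one_div]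
    exact inv_anti₀ (by norm_num) (by linarith)
  rw [h4] at h3
  nlinarith

theorem sieve_any : ∃ C : ℝ, 0 < C ∧ ∀ m c h N : ℕ, 1 ≤ m → 1 ≤ h → 2 ≤ N →
    (((Icc 1 N).filter (fun n => (m * n + c).Prime ∧ (m * n + (c + h)).Prime)).card : ℝ) ≤
      C * (rt m ^ 6 * rt h ^ 2) * (N / (Real.log N) ^ 2) := by
  obtain ⟨C, hC, hs⟩ := Pool.Agent.Helper112.E456.sieve_two
  refine ⟨C + 1, by positivity, fun m c h N hm hh hN => ?_⟩
  have hlog : 0 < Real.log N := Real.log_pos (by exact_mod_cast (by omega : 1 < N))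
  have hr1 := one_le_rt hm
  have hr2 := one_le_rt hh
  have hA : 1 ≤ rt m ^ 6 * rt h ^ 2 := by
    have h1 : 1 ≤ rt m ^ 6 := one_le_pow₀ hr1
    have h2 : 1 ≤ rt h ^ 2 := one_le_pow₀ hr2
    nlinarith
  have hB : 1 ≤ (N : ℝ) / (Real.log N) ^ 2 := by
    rw [le_div_iff₀ (by positivity), one_mul]
    exact log_sq_le hN
  by_cases hc1 : Nat.Coprime m c
  · by_cases hc2 : Nat.Coprime m (c + h)
    · have hne : m * (c + h) ≠ m * c := by
        intro he
        have := Nat.eq_of_mul_eq_mul_left (by omega) he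
        omega
      have h1 := hs m c m (c + h) N (by omega) (by omega) hc1 hc2 hne hN
      have hD : m * m * (((m * (c + h) : ℕ) : ℤ) - ((m * c : ℕ) : ℤ)).natAbs =
          m * m * (m * h) := by
        congr 1
        have : (((m * (c + h) : ℕ) : ℤ) - ((m * c : ℕ) : ℤ)) = ((m * h : ℕ) : ℤ) := by
          push_cast; ring
        rw [this, Int.natAbs_natCast]
      rw [hD] at h1
      have h2 : ((m * m * (m * h) : ℕ) : ℝ) / ((Nat.totient (m * m * (m * h)) : ℕ) : ℝ) ≤
          rt m ^ 3 * rt h := by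
        have e1 : rt (m * m * (m * h)) ≤ rt (m * m) * rt (m * h) :=
          rt_mul_le (Nat.mul_pos hm hm) (Nat.mul_pos hm hh)
        have e2 := rt_mul_le hm hm
        have e3 := rt_mul_le hm hh
        calc ((m * m * (m * h) : ℕ) : ℝ) / ((Nat.totient (m * m * (m * h)) : ℕ) : ℝ)
            = rt (m * m * (m * h)) := rfl
          _ ≤ rt (m * m) * rt (m * h) := e1
          _ ≤ (rt m * rt m) * (rt m * rt h) :=
            mul_le_mul e2 e3 (rt_nonneg _) (mul_nonneg (rt_nonneg _) (rt_nonneg _))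
          _ = rt m ^ 3 * rt h := by ring
      have h3 : (((m * m * (m * h) : ℕ) : ℝ) / ((Nat.totient (m * m * (m * h)) : ℕ) : ℝ)) ^ 2 ≤
          rt m ^ 6 * rt h ^ 2 := by
        have := pow_le_pow_left₀ (by positivity) h2 2
        calc _ ≤ (rt m ^ 3 * rt h) ^ 2 := this
          _ = _ := by ring
      refine h1.trans ?_
      have e : C * (((m * m * (m * h) : ℕ) : ℝ) / ((Nat.totient (m * m * (m * h)) : ℕ) : ℝ)) ^ 2 * N /
          (Real.log N) ^ 2 = C * (((m * m * (m * h) : ℕ) : ℝ) /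
            ((Nat.totient (m * m * (m * h)) : ℕ) : ℝ)) ^ 2 * (N / (Real.log N) ^ 2) := by ring
      rw [e]
      apply mul_le_mul_of_nonneg_right _ (by positivity)
      calc C * (((m * m * (m * h) : ℕ) : ℝ) / ((Nat.totient (m * m * (m * h)) : ℕ) : ℝ)) ^ 2
          ≤ C * (rt m ^ 6 * rt h ^ 2) := mul_le_mul_of_nonneg_left h3 hC.le
        _ ≤ (C + 1) * (rt m ^ 6 * rt h ^ 2) := by nlinarith
    · -- no prime values
      have hempty : (Icc 1 N).filter (fun n => (m * n + c).Prime ∧ (m * n + (c + h)).Prime) = ∅ := by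
        rw [filter_eq_empty_iff]
        rintro n hn ⟨-, hp⟩
        rw [mem_Icc] at hn
        have hd1 : Nat.gcd m (c + h) ∣ m * n + (c + h) :=
          Dvd.dvd.add (Dvd.dvd.mul_right (Nat.gcd_dvd_left _ _) _) (Nat.gcd_dvd_right _ _)
        rcases (Nat.dvd_prime hp).1 hd1 with h1 | h1
        · exact hc2 h1
        · have h2 : Nat.gcd m (c + h) ≤ m := Nat.le_of_dvd (by omega) (Nat.gcd_dvd_left _ _)
          nlinarith
      rw [hempty, card_empty, Nat.cast_zero]
      positivity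
  · -- at most one prime value
    have hle : ((Icc 1 N).filter (fun n => (m * n + c).Prime ∧ (m * n + (c + h)).Prime)).card ≤ 1 := by
      rw [card_le_one]
      have key : ∀ n ∈ (Icc 1 N).filter (fun n => (m * n + c).Prime ∧ (m * n + (c + h)).Prime),
          n = 1 := by
        intro n hn
        rw [mem_filter, mem_Icc] at hn
        obtain ⟨⟨hn1, -⟩, hp, -⟩ := hn
        have hd1 : Nat.gcd m c ∣ m * n + c :=
          Dvd.dvd.add (Dvd.dvd.mul_right (Nat.gcd_dvd_left _ _) _) (Nat.gcd_dvd_right _ _)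
        rcases (Nat.dvd_prime hp).1 hd1 with h1 | h1
        · exact absurd h1 hc1
        · have h2 : Nat.gcd m c ≤ m := Nat.le_of_dvd (by omega) (Nat.gcd_dvd_left _ _)
          have h3 : m * n ≤ m * 1 := by omega
          have h4 := Nat.le_of_mul_le_mul_left h3 (by omega)
          omega
      intro a ha b hb
      rw [key a ha, key b hb]
    have h1 : (((Icc 1 N).filter (fun n => (m * n + c).Prime ∧ (m * n + (c + h)).Prime)).card : ℝ) ≤ 1 := by
      exact_mod_cast hle
    calc _ ≤ (1 : ℝ) := h1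
      _ ≤ (C + 1) * (rt m ^ 6 * rt h ^ 2) * (N / (Real.log N) ^ 2) := by
        have h2 : 1 ≤ (C + 1) * (rt m ^ 6 * rt h ^ 2) := by nlinarith
        nlinarith

/-- moments -/
theorem moment : ∃ C : ℝ, 1 ≤ C ∧ ∀ N : ℕ, ∑ n ∈ Icc 1 N, rt n ^ 6 ≤ C * N := by
  obtain ⟨C, hC⟩ := Pool.Agent.Erdos456.Mert.totRatio_moment
  refine ⟨C, ?_, hC⟩
  have := hC 1
  simp only [Icc_self, sum_singleton, Nat.cast_one, Nat.totient_one] at this
  norm_num at this
  linarith

theorem abel (ρ : ℕ → ℝ) (C : ℝ) (hρ : ∀ n, 0 ≤ ρ n) (hC : ∀ N : ℕ, ∑ n ∈ Icc 1 N, ρ n ≤ C * N)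
    (N : ℕ) (hN : 1 ≤ N) :
    ∑ n ∈ Icc 1 N, ρ n / n ≤ C * (1 + ∑ n ∈ Icc 1 N, 1 / (n : ℝ)) := by
  have key : ∀ N : ℕ, 1 ≤ N → ∑ n ∈ Icc 1 N, ρ n / n ≤
      (∑ n ∈ Icc 1 N, ρ n) / N + C * ∑ n ∈ Icc 1 N, 1 / (n : ℝ) := by
    intro N hN
    induction N, hN using Nat.le_induction with
    | base =>
      simp only [Icc_self, sum_singleton, Nat.cast_one, div_one, mul_one]
      have := hC 1
      simp only [Icc_self, sum_singleton, Nat.cast_one, mul_one] at this
      have := hρ 1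
      linarith
    | succ N hN ih =>
      have hN0 : (0 : ℝ) < N := by exact_mod_cast hN
      rw [sum_Icc_succ_top (by omega), sum_Icc_succ_top (by omega), sum_Icc_succ_top (by omega)]
      have hS := hC N
      set S := ∑ n ∈ Icc 1 N, ρ n with hSdef
      set H := ∑ n ∈ Icc 1 N, 1 / (n : ℝ) with hHdef
      have e1 : S / N - S / ((N + 1 : ℕ) : ℝ) ≤ C * (1 / ((N + 1 : ℕ) : ℝ)) := by
        push_cast
        rw [div_sub_div _ _ (by positivity) (by positivity), mul_one_div,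
          div_le_div_iff₀ (by positivity) (by positivity)]
        nlinarith [mul_le_mul_of_nonneg_right hS (show (0 : ℝ) ≤ (N : ℝ) + 1 by positivity)]
      rw [add_div, mul_add]
      linarith
  have h1 := key N hN
  have hN0 : (0 : ℝ) < N := by exact_mod_cast hN
  have h2 : (∑ n ∈ Icc 1 N, ρ n) / N ≤ C := by
    rw [div_le_iff₀ hN0]
    exact hC N
  rw [mul_add, mul_one]
  linarith

theorem harm_le (N : ℕ) : ∑ n ∈ Icc 1 N, 1 / (n : ℝ) ≤ 1 + Real.log N := by
  have h := harmonic_le_one_add_log N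
  rw [harmonic_eq_sum_Icc] at h
  push_cast at h
  simpa using h

end Pool.Agent.R330.AF
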