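import Mathlib
import Pool.Agent.R330.AF.Sv

/-!
# Counting the parameters of a collision
-/

namespace Pool.Agent.R330.AF

open Finset Filter

/-- The inner set. -/
def S (m e f y : ℕ) : Finset ℕ :=
  (Icc 1 y).filter (fun p => p * max m e ≤ y * m ∧ p.Prime ∧ (p + 8 * (e * f)).Prime ∧
    m ∣ 6 * p + 24 * (e * f) - 2)

/-- residue classes -/
def Cl (m κ : ℕ) : Finset ℕ := (range m).filter (fun c => (6 * c + κ) % m = 2 % m)

theorem Cl_card (m κ : ℕ) (hm : 1 ≤ m) : (Cl m κ).card ≤ 7 := by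
  have h : (Cl m κ).card ≤ (range 7).card := by
    apply card_le_card_of_injOn (fun c => (6 * c + κ % m) / m)
    · intro c hc
      rw [mem_coe, Cl, mem_filter, mem_range] at hc
      rw [mem_coe, mem_range]
      rw [Nat.div_lt_iff_lt_mul (by omega)]
      have := Nat.mod_lt κ (show 0 < m by omega)
      omega
    · intro c hc d hd hcd
      rw [mem_coe, Cl, mem_filter, mem_range] at hc hd
      simp only at hcd
      have e1 : (6 * c + κ % m) % m = 2 % m := by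
        rw [Nat.add_mod, Nat.mod_mod, ← Nat.add_mod]; exact hc.2
      have e2 : (6 * d + κ % m) % m = 2 % m := by
        rw [Nat.add_mod, Nat.mod_mod, ← Nat.add_mod]; exact hd.2
      have h1 := Nat.div_add_mod (6 * c + κ % m) m
      have h2 := Nat.div_add_mod (6 * d + κ % m) m
      rw [e1, hcd] at h1
      rw [e2] at h2
      omega
  simpa using h

theorem S_sub (m e f y : ℕ) (hm : 1 ≤ m) :
    S m e f y ⊆ (Cl m (24 * (e * f))).biUnion (fun c =>
      (insert 0 ((Icc 1 (y / max m e)).filter (fun n => (m * n + c).Prime ∧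
        (m * n + (c + 8 * (e * f))).Prime))).image (fun n => m * n + c)) := by
  intro p hp
  rw [S, mem_filter, mem_Icc] at hp
  obtain ⟨⟨hp1, hpy⟩, hpM, hpp, hpq, b, hb'⟩ := hp
  have hb : 6 * p + 24 * (e * f) = m * b + 2 := by omega
  rw [mem_biUnion]
  have hdm := Nat.div_add_mod p m
  have hM : 0 < max m e := lt_of_lt_of_le hm (le_max_left _ _)
  refine ⟨p % m, ?_, ?_⟩
  · rw [Cl, mem_filter, mem_range]
    refine ⟨Nat.mod_lt _ (by omega), ?_⟩
    have e1 : 6 * (p % m) + 24 * (e * f) + m * (6 * (p / m)) = m * b + 2 := by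
      have : 6 * p = 6 * (p % m) + m * (6 * (p / m)) := by
        nth_rewrite 1 [← hdm]; ring
      omega
    have e2 : (6 * (p % m) + 24 * (e * f) + m * (6 * (p / m))) % m =
        (6 * (p % m) + 24 * (e * f)) % m := Nat.add_mul_mod_self_left _ _ _
    rw [← e2, e1, Nat.add_mod, Nat.mul_mod_right, zero_add, Nat.mod_mod]
  · rw [mem_image]
    refine ⟨p / m, ?_, hdm⟩
    rw [mem_insert, mem_filter, mem_Icc]
    rcases Nat.eq_zero_or_pos (p / m) with h0 | h0
    · left; exact h0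
    · right
      refine ⟨⟨h0, ?_⟩, ?_, ?_⟩
      · rw [Nat.le_div_iff_mul_le hM]
        have h1 : m * (p / m) ≤ p := Nat.mul_div_le p m
        have h2 : m * (p / m * max m e) ≤ m * y := by
          calc m * (p / m * max m e) = m * (p / m) * max m e := by ring
            _ ≤ p * max m e := Nat.mul_le_mul_right _ h1
            _ ≤ y * m := hpM
            _ = m * y := by ring
        exact Nat.le_of_mul_le_mul_left h2 hm
      · rw [hdm]; exact hpp
      · rw [← add_assoc, hdm]; exact hpq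

theorem S_bound : ∃ C : ℝ, 0 < C ∧ ∀ m e f y : ℕ, 1 ≤ m → 1 ≤ e → 1 ≤ f → 2 ≤ y / max m e →
    ((S m e f y).card : ℝ) ≤ C * (rt m ^ 6 * rt e ^ 6 * rt f ^ 6) *
      (((y / max m e : ℕ) : ℝ) / (Real.log ((y / max m e : ℕ) : ℝ)) ^ 2) := by
  classical
  obtain ⟨C1, hC1, hs⟩ := sieve_any
  refine ⟨7 * (1 + 4 * C1), by positivity, fun m e f y hm he hf hN => ?_⟩
  set N := y / max m e with hNdef
  have hlog : 0 < Real.log N := Real.log_pos (by exact_mod_cast (by omega : 1 < N))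
  have h8 : rt 8 = 2 := by
    unfold rt
    have : Nat.totient 8 = 4 := by decide
    rw [this]; norm_num
  have hef : 1 ≤ e * f := Nat.mul_pos he hf
  have hrm := one_le_rt hm
  have hre := one_le_rt he
  have hrf := one_le_rt hf
  have h1 : rt (8 * (e * f)) ≤ 2 * (rt e * rt f) := by
    calc rt (8 * (e * f)) ≤ rt 8 * rt (e * f) := rt_mul_le (by norm_num) hef
      _ ≤ 2 * (rt e * rt f) := by
        rw [h8]
        exact mul_le_mul_of_nonneg_left (rt_mul_le he hf) (by norm_num)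
  have h2 : rt (8 * (e * f)) ^ 2 ≤ 4 * (rt e ^ 6 * rt f ^ 6) := by
    have a1 := pow_le_pow_left₀ (rt_nonneg _) h1 2
    have a2 : rt e ^ 2 ≤ rt e ^ 6 := pow_le_pow_right₀ hre (by norm_num)
    have a3 : rt f ^ 2 ≤ rt f ^ 6 := pow_le_pow_right₀ hrf (by norm_num)
    calc rt (8 * (e * f)) ^ 2 ≤ (2 * (rt e * rt f)) ^ 2 := a1
      _ = 4 * (rt e ^ 2 * rt f ^ 2) := by ring
      _ ≤ 4 * (rt e ^ 6 * rt f ^ 6) := by
        apply mul_le_mul_of_nonneg_left _ (by norm_num)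
        exact mul_le_mul a2 a3 (by positivity) (by positivity)
  set R := rt m ^ 6 * rt e ^ 6 * rt f ^ 6 with hR
  have hR1 : 1 ≤ R := by
    have b1 : 1 ≤ rt m ^ 6 := one_le_pow₀ hrm
    have b2 : 1 ≤ rt e ^ 6 := one_le_pow₀ hre
    have b3 : 1 ≤ rt f ^ 6 := one_le_pow₀ hrf
    have b4 : 1 ≤ rt m ^ 6 * rt e ^ 6 := one_le_mul_of_one_le_of_one_le b1 b2
    exact one_le_mul_of_one_le_of_one_le b4 b3
  set B : ℝ := (N : ℝ) / (Real.log N) ^ 2 with hB
  have hB1 : 1 ≤ B := by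
    rw [hB, le_div_iff₀ (by positivity), one_mul]
    exact log_sq_le hN
  have hcls : ∀ c ∈ Cl m (24 * (e * f)),
      ((((insert 0 ((Icc 1 N).filter (fun n => (m * n + c).Prime ∧
        (m * n + (c + 8 * (e * f))).Prime))).image (fun n => m * n + c)).card : ℕ) : ℝ) ≤
        (1 + 4 * C1) * (R * B) := by
    intro c _
    have c1 : (((insert 0 ((Icc 1 N).filter (fun n => (m * n + c).Prime ∧
        (m * n + (c + 8 * (e * f))).Prime))).image (fun n => m * n + c)).card) ≤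
        ((Icc 1 N).filter (fun n => (m * n + c).Prime ∧
        (m * n + (c + 8 * (e * f))).Prime)).card + 1 := card_image_le.trans (card_insert_le _ _)
    have c2 := hs m c (8 * (e * f)) N hm (by omega) hN
    have c3 : C1 * (rt m ^ 6 * rt (8 * (e * f)) ^ 2) * (N / (Real.log N) ^ 2) ≤
        4 * C1 * (R * B) := by
      calc C1 * (rt m ^ 6 * rt (8 * (e * f)) ^ 2) * (N / (Real.log N) ^ 2)
          ≤ C1 * (rt m ^ 6 * (4 * (rt e ^ 6 * rt f ^ 6))) * (N / (Real.log N) ^ 2) := by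
            apply mul_le_mul_of_nonneg_right _ (by positivity)
            apply mul_le_mul_of_nonneg_left _ hC1.le
            exact mul_le_mul_of_nonneg_left h2 (by positivity)
        _ = 4 * C1 * (R * B) := by rw [hR, hB]; ring
    have c4 : 1 ≤ R * B := one_le_mul_of_one_le_of_one_le hR1 hB1
    calc _ ≤ ((((Icc 1 N).filter (fun n => (m * n + c).Prime ∧
        (m * n + (c + 8 * (e * f))).Prime)).card + 1 : ℕ) : ℝ) := by exact_mod_cast c1
      _ ≤ (1 + 4 * C1) * (R * B) := by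
        push_cast
        linarith
  have hsub := (card_le_card (S_sub m e f y hm)).trans card_biUnion_le
  calc ((S m e f y).card : ℝ) ≤ ((∑ c ∈ Cl m (24 * (e * f)),
        ((insert 0 ((Icc 1 N).filter (fun n => (m * n + c).Prime ∧
        (m * n + (c + 8 * (e * f))).Prime))).image (fun n => m * n + c)).card : ℕ) : ℝ) := by
        exact_mod_cast hsub
    _ ≤ ∑ c ∈ Cl m (24 * (e * f)), (1 + 4 * C1) * (R * B) := by
        push_cast
        exact sum_le_sum hcls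
    _ = ((Cl m (24 * (e * f))).card : ℝ) * ((1 + 4 * C1) * (R * B)) := by
        rw [sum_const, nsmul_eq_mul]
    _ ≤ 7 * ((1 + 4 * C1) * (R * B)) := by
        apply mul_le_mul_of_nonneg_right _ (by positivity)
        exact_mod_cast Cl_card m _ hm
    _ = _ := by ring

/-- the number of parameters -/
def TN (P y : ℕ) : ℕ := ∑ m ∈ Icc 1 P, ∑ e ∈ Icc 1 P, ∑ f ∈ Icc 1 (2 * y / max m e), (S m e f y).card

theorem max_sum (ρ : ℕ → ℝ) (C : ℝ) (hρ : ∀ n, 0 ≤ ρ n) (hC0 : 0 ≤ C)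
    (hC : ∀ N : ℕ, ∑ n ∈ Icc 1 N, ρ n ≤ C * N)
    (P : ℕ) (hP : 1 ≤ P) :
    ∑ m ∈ Icc 1 P, ∑ e ∈ Icc 1 P, ρ m * ρ e / ((max m e : ℕ) : ℝ) ^ 2 ≤
      2 * C ^ 2 * (2 + Real.log P) := by
  have h1 : ∑ m ∈ Icc 1 P, ∑ e ∈ (Icc 1 P).filter (fun e => e ≤ m), ρ m * ρ e / (m : ℝ) ^ 2 ≤
      C ^ 2 * (2 + Real.log P) := by
    have h2 : ∀ m ∈ Icc 1 P, ∑ e ∈ (Icc 1 P).filter (fun e => e ≤ m), ρ m * ρ e / (m : ℝ) ^ 2 ≤
        C * (ρ m / m) := by
      intro m hm
      rw [mem_Icc] at hm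
      have hm0 : (0 : ℝ) < m := by exact_mod_cast hm.1
      have h3 : ∑ e ∈ (Icc 1 P).filter (fun e => e ≤ m), ρ e ≤ C * m := by
        refine le_trans (sum_le_sum_of_subset_of_nonneg ?_ (fun i _ _ => hρ i)) (hC m)
        intro e he
        rw [mem_filter, mem_Icc] at he
        rw [mem_Icc]
        exact ⟨he.1.1, he.2⟩
      calc ∑ e ∈ (Icc 1 P).filter (fun e => e ≤ m), ρ m * ρ e / (m : ℝ) ^ 2
          = (ρ m / (m : ℝ) ^ 2) * ∑ e ∈ (Icc 1 P).filter (fun e => e ≤ m), ρ e := by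
            rw [mul_sum]
            apply sum_congr rfl
            intro e _
            ring
        _ ≤ (ρ m / (m : ℝ) ^ 2) * (C * m) :=
            mul_le_mul_of_nonneg_left h3 (div_nonneg (hρ m) (by positivity))
        _ = C * (ρ m / m) := by field_simp
    refine (sum_le_sum h2).trans ?_
    rw [← mul_sum]
    have h4 := abel ρ C hρ hC P hP
    have h5 := harm_le P
    calc C * ∑ m ∈ Icc 1 P, ρ m / m ≤ C * (C * (1 + ∑ n ∈ Icc 1 P, 1 / (n : ℝ))) :=
          mul_le_mul_of_nonneg_left h4 hC0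
      _ ≤ C * (C * (2 + Real.log P)) := by
          apply mul_le_mul_of_nonneg_left _ hC0
          apply mul_le_mul_of_nonneg_left _ hC0
          linarith
      _ = _ := by ring
  have h6 : ∀ m ∈ Icc 1 P, ∀ e ∈ Icc 1 P, ρ m * ρ e / ((max m e : ℕ) : ℝ) ^ 2 ≤
      (if e ≤ m then ρ m * ρ e / (m : ℝ) ^ 2 else 0) +
      (if m ≤ e then ρ e * ρ m / (e : ℝ) ^ 2 else 0) := by
    intro m _ e _
    have n1 : 0 ≤ ρ m * ρ e / (m : ℝ) ^ 2 := div_nonneg (mul_nonneg (hρ _) (hρ _)) (by positivity)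
    have n2 : 0 ≤ ρ e * ρ m / (e : ℝ) ^ 2 := div_nonneg (mul_nonneg (hρ _) (hρ _)) (by positivity)
    rcases le_total e m with h | h
    · rw [max_eq_left h, if_pos h]
      split_ifs
      · linarith
      · linarith
    · rw [max_eq_right h, if_pos h, mul_comm (ρ m) (ρ e)]
      split_ifs with h'
      · rw [mul_comm (ρ m) (ρ e)] at n1
        linarith
      · linarith
  have h7 : ∑ m ∈ Icc 1 P, ∑ e ∈ Icc 1 P, ρ m * ρ e / ((max m e : ℕ) : ℝ) ^ 2 ≤
      ∑ m ∈ Icc 1 P, ∑ e ∈ Icc 1 P, ((if e ≤ m then ρ m * ρ e / (m : ℝ) ^ 2 else 0) +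
      (if m ≤ e then ρ e * ρ m / (e : ℝ) ^ 2 else 0)) :=
    sum_le_sum fun m hm => sum_le_sum fun e he => h6 m hm e he
  have h8 : ∑ m ∈ Icc 1 P, ∑ e ∈ Icc 1 P, ((if e ≤ m then ρ m * ρ e / (m : ℝ) ^ 2 else 0) +
      (if m ≤ e then ρ e * ρ m / (e : ℝ) ^ 2 else 0)) =
      2 * ∑ m ∈ Icc 1 P, ∑ e ∈ (Icc 1 P).filter (fun e => e ≤ m), ρ m * ρ e / (m : ℝ) ^ 2 := by
    have a1 : ∑ m ∈ Icc 1 P, ∑ e ∈ Icc 1 P, (if e ≤ m then ρ m * ρ e / (m : ℝ) ^ 2 else 0) =
        ∑ m ∈ Icc 1 P, ∑ e ∈ (Icc 1 P).filter (fun e => e ≤ m), ρ m * ρ e / (m : ℝ) ^ 2 := by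
      apply sum_congr rfl
      intro m _
      rw [sum_filter]
    have a2 : ∑ m ∈ Icc 1 P, ∑ e ∈ Icc 1 P, (if m ≤ e then ρ e * ρ m / (e : ℝ) ^ 2 else 0) =
        ∑ m ∈ Icc 1 P, ∑ e ∈ (Icc 1 P).filter (fun e => e ≤ m), ρ m * ρ e / (m : ℝ) ^ 2 := by
      rw [sum_comm, a1.symm]
    simp only [sum_add_distrib]
    rw [a1, a2]
    ring
  rw [h8] at h7
  linarith

theorem TN_bound : ∃ C : ℝ, 0 < C ∧ ∀ᶠ y : ℕ in atTop,
    (TN (Nat.sqrt (6 * y) + 1) y : ℝ) ≤ C * ((y : ℝ) ^ 2 / Real.log y) := by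
  obtain ⟨C1, hC1, hS⟩ := S_bound
  obtain ⟨C2, hC2, hm⟩ := moment
  refine ⟨C1 * 9 * (2 * C2) * (2 * C2 ^ 2) * 3, by positivity, ?_⟩
  filter_upwards [eventually_ge_atTop 100000] with y hy
  have hy0 : (0 : ℝ) < y := by positivity
  have hyR : (100000 : ℝ) ≤ y := by exact_mod_cast hy
  have hlog : 0 < Real.log y := Real.log_pos (by linarith)
  set P := Nat.sqrt (6 * y) + 1 with hP
  have hsq : √(y : ℝ) * √(y : ℝ) = y := Real.mul_self_sqrt hy0.le
  have hs0 : 0 < √(y : ℝ) := Real.sqrt_pos.2 hy0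
  have hs300 : (300 : ℝ) ≤ √(y : ℝ) := by
    apply Real.le_sqrt_of_sq_le; linarith
  have hPle : (P : ℝ) ≤ 3 * √(y : ℝ) := by
    have h1 : ((Nat.sqrt (6 * y) : ℕ) : ℝ) ^ 2 ≤ 6 * y := by
      have := Nat.sqrt_le' (6 * y)
      exact_mod_cast this
    have h2 : ((Nat.sqrt (6 * y) : ℕ) : ℝ) ≤ (5 / 2) * √(y : ℝ) := by
      apply le_of_sq_le_sq _ (by positivity)
      rw [mul_pow, Real.sq_sqrt hy0.le]
      linarith
    rw [hP]; push_cast; linarith
  -- lower bound for N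
  have hN : ∀ m ∈ Icc 1 P, ∀ e ∈ Icc 1 P, 2 ≤ y / max m e ∧
      (((y / max m e : ℕ) : ℝ) / (Real.log ((y / max m e : ℕ) : ℝ)) ^ 2) ≤
        9 * (y / ((max m e : ℕ) : ℝ)) / (Real.log y) ^ 2 := by
    intro m hm' e he'
    rw [mem_Icc] at hm' he'
    have hM1 : 1 ≤ max m e := hm'.1.trans (le_max_left _ _)
    have hMP : max m e ≤ P := max_le hm'.2 he'.2
    set M := max m e with hMdef
    have hM0 : (0 : ℝ) < M := by exact_mod_cast hM1
    have hMR : (M : ℝ) ≤ 3 * √(y : ℝ) := le_trans (by exact_mod_cast hMP) hPle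
    have h1 : (y : ℝ) / M < ((y / M : ℕ) : ℝ) + 1 := by
      rw [div_lt_iff₀ hM0]
      have := Nat.lt_mul_div_succ y (show 0 < M by omega)
      have h2 : (y : ℝ) < M * (((y / M : ℕ) : ℝ) + 1) := by exact_mod_cast this
      linarith
    have h2 : √(y : ℝ) / 3 ≤ (y : ℝ) / M := by
      rw [div_le_div_iff₀ (by norm_num) hM0]
      calc √(y : ℝ) * M ≤ √(y : ℝ) * (3 * √(y : ℝ)) := mul_le_mul_of_nonneg_left hMR hs0.le
        _ = 3 * (√(y : ℝ) * √(y : ℝ)) := by ring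
        _ = y * 3 := by rw [hsq]; ring
    have h3 : √(y : ℝ) / 4 ≤ ((y / M : ℕ) : ℝ) := by linarith
    have h4 : (2 : ℝ) ≤ ((y / M : ℕ) : ℝ) := by linarith
    have h5 : Real.log y / 3 ≤ Real.log ((y / M : ℕ) : ℝ) := by
      have e1 : Real.log (√(y : ℝ) / 4) ≤ Real.log ((y / M : ℕ) : ℝ) :=
        Real.log_le_log (by positivity) h3
      have e2 : Real.log (√(y : ℝ) / 4) = Real.log y / 2 - Real.log 4 := by
        rw [Real.log_div (by positivity) (by norm_num), Real.log_sqrt hy0.le]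
      have e3 : 6 * Real.log 4 ≤ Real.log y := by
        have : 6 * Real.log 4 = Real.log (4 ^ 6) := by
          rw [Real.log_pow]; norm_num
        rw [this]
        apply Real.log_le_log (by norm_num)
        linarith
      linarith
    refine ⟨by exact_mod_cast h4, ?_⟩
    have h6 : ((y / M : ℕ) : ℝ) ≤ y / M := Nat.cast_div_le
    calc ((y / M : ℕ) : ℝ) / (Real.log ((y / M : ℕ) : ℝ)) ^ 2
        ≤ (y / M : ℝ) / (Real.log y / 3) ^ 2 := by
          apply div_le_div₀ (by positivity) h6 (by positivity)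
          exact pow_le_pow_left₀ (by positivity) h5 2
      _ = 9 * (y / (M : ℝ)) / (Real.log y) ^ 2 := by field_simp; norm_num
  have hin : ∀ m ∈ Icc 1 P, ∀ e ∈ Icc 1 P,
      ((∑ f ∈ Icc 1 (2 * y / max m e), (S m e f y).card : ℕ) : ℝ) ≤
        (C1 * 9 * (2 * C2) * ((y : ℝ) ^ 2 / (Real.log y) ^ 2)) *
          (rt m ^ 6 * rt e ^ 6 / ((max m e : ℕ) : ℝ) ^ 2) := by
    intro m hm' e he'
    obtain ⟨hN2, hNle⟩ := hN m hm' e he'
    rw [mem_Icc] at hm' he'
    have hM1 : 1 ≤ max m e := hm'.1.trans (le_max_left _ _)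
    have hSS := fun f (hf : 1 ≤ f) => hS m e f y hm'.1 he'.1 hf hN2
    generalize max m e = M at *
    have hM0 : (0 : ℝ) < (M : ℝ) := by exact_mod_cast hM1
    push_cast
    have h1 : ∀ f ∈ Icc 1 (2 * y / M), ((S m e f y).card : ℝ) ≤
        (C1 * (rt m ^ 6 * rt e ^ 6) * (9 * (y / (M : ℝ)) / (Real.log y) ^ 2)) *
          rt f ^ 6 := by
      intro f hf
      rw [mem_Icc] at hf
      have h2 := hSS f hf.1
      have hrf : 0 ≤ rt f := rt_nonneg f
      have hrm : 0 ≤ rt m := rt_nonneg m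
      have hre : 0 ≤ rt e := rt_nonneg e
      calc ((S m e f y).card : ℝ) ≤ C1 * (rt m ^ 6 * rt e ^ 6 * rt f ^ 6) *
            (((y / M : ℕ) : ℝ) / (Real.log ((y / M : ℕ) : ℝ)) ^ 2) := h2
        _ ≤ C1 * (rt m ^ 6 * rt e ^ 6 * rt f ^ 6) *
            (9 * (y / (M : ℝ)) / (Real.log y) ^ 2) :=
            mul_le_mul_of_nonneg_left hNle (by positivity)
        _ = _ := by ring
    refine (sum_le_sum h1).trans ?_
    rw [← mul_sum]
    have hrm : 0 ≤ rt m := rt_nonneg m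
    have hre : 0 ≤ rt e := rt_nonneg e
    have h3 : ((2 * y / M : ℕ) : ℝ) ≤ 2 * y / (M : ℝ) := by
      have : ((2 * y / M : ℕ) : ℝ) ≤ ((2 * y : ℕ) : ℝ) / (M : ℝ) := Nat.cast_div_le
      push_cast at this
      exact_mod_cast this
    calc (C1 * (rt m ^ 6 * rt e ^ 6) * (9 * (y / (M : ℝ)) / (Real.log y) ^ 2)) *
          ∑ f ∈ Icc 1 (2 * y / M), rt f ^ 6
        ≤ (C1 * (rt m ^ 6 * rt e ^ 6) * (9 * (y / (M : ℝ)) / (Real.log y) ^ 2)) *
          (C2 * (2 * y / (M : ℝ))) := by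
          apply mul_le_mul_of_nonneg_left _ (by positivity)
          exact (hm _).trans (mul_le_mul_of_nonneg_left h3 (by linarith))
      _ = _ := by ring
  have hlogP : 2 + Real.log P ≤ 3 * Real.log y := by
    have h1 : Real.log P ≤ Real.log y := by
      apply Real.log_le_log
      · rw [hP]; positivity
      · calc (P : ℝ) ≤ 3 * √(y : ℝ) := hPle
          _ ≤ √(y : ℝ) * √(y : ℝ) := by
            apply mul_le_mul_of_nonneg_right _ hs0.le
            linarith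
          _ = y := hsq
    have h2 : 1 ≤ Real.log y := by
      rw [← Real.log_exp 1]
      apply Real.log_le_log (Real.exp_pos _)
      have := Real.exp_one_lt_d9
      linarith
    linarith
  have hmax := max_sum (fun n => rt n ^ 6) C2 (fun n => pow_nonneg (rt_nonneg n) 6) (by linarith) hm P
    (by omega)
  unfold TN
  push_cast
  calc ∑ m ∈ Icc 1 P, ∑ e ∈ Icc 1 P, ∑ f ∈ Icc 1 (2 * y / max m e), ((S m e f y).card : ℝ)
      ≤ ∑ m ∈ Icc 1 P, ∑ e ∈ Icc 1 P, (C1 * 9 * (2 * C2) * ((y : ℝ) ^ 2 / (Real.log y) ^ 2)) *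
          (rt m ^ 6 * rt e ^ 6 / ((max m e : ℕ) : ℝ) ^ 2) := by
        apply sum_le_sum
        intro m hm'
        apply sum_le_sum
        intro e he'
        have := hin m hm' e he'
        push_cast at this
        exact_mod_cast this
    _ = (C1 * 9 * (2 * C2) * ((y : ℝ) ^ 2 / (Real.log y) ^ 2)) *
        ∑ m ∈ Icc 1 P, ∑ e ∈ Icc 1 P, (rt m ^ 6 * rt e ^ 6 / ((max m e : ℕ) : ℝ) ^ 2) := by
        rw [mul_sum]
        apply sum_congr rfl
        intro m _
        rw [mul_sum]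
    _ ≤ (C1 * 9 * (2 * C2) * ((y : ℝ) ^ 2 / (Real.log y) ^ 2)) *
        (2 * C2 ^ 2 * (3 * Real.log y)) := by
        apply mul_le_mul_of_nonneg_left _ (by positivity)
        refine hmax.trans ?_
        exact mul_le_mul_of_nonneg_left hlogP (by positivity)
    _ = C1 * 9 * (2 * C2) * (2 * C2 ^ 2) * 3 * ((y : ℝ) ^ 2 / Real.log y) := by
        field_simp

end Pool.Agent.R330.AF
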