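import Mathlib
import Pool.Agent.R330.AF.Cnt

/-!
# Collisions of `ℓ² + 2 ((ℓ-1)/2)² + 4 w²`
-/

namespace Pool.Agent.R330.AF

open Finset Filter

/-- the value -/
def V (l w : ℕ) : ℕ := l ^ 2 + ((l - 1) / 2) ^ 2 + ((l - 1) / 2) ^ 2 + 4 * w ^ 2

/-- first parametrization of collisions -/
def φA (m e f p : ℕ) : (ℕ × ℕ) × (ℕ × ℕ) :=
  ((p + 8 * (e * f), (f * m - e * ((6 * p + 24 * (e * f) - 2) / m)) / 2),
    (p, (f * m + e * ((6 * p + 24 * (e * f) - 2) / m)) / 2))

/-- second parametrization of collisions -/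
def φB (m e f p : ℕ) : (ℕ × ℕ) × (ℕ × ℕ) :=
  ((p + 8 * (e * f), (e * ((6 * p + 24 * (e * f) - 2) / m) - f * m) / 2),
    (p, (e * ((6 * p + 24 * (e * f) - 2) / m) + f * m) / 2))

/-- all images of the parameters -/
def Im (φ : ℕ → ℕ → ℕ → ℕ → (ℕ × ℕ) × (ℕ × ℕ)) (P y : ℕ) : Finset ((ℕ × ℕ) × (ℕ × ℕ)) :=
  (Icc 1 P).biUnion (fun m => (Icc 1 P).biUnion (fun e =>
    (Icc 1 (2 * y / max m e)).biUnion (fun f => (S m e f y).image (fun p => φ m e f p))))

theorem Im_card (φ : ℕ → ℕ → ℕ → ℕ → (ℕ × ℕ) × (ℕ × ℕ)) (P y : ℕ) : (Im φ P y).card ≤ TN P y := by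
  unfold Im TN
  refine card_biUnion_le.trans (sum_le_sum fun m _ => ?_)
  refine card_biUnion_le.trans (sum_le_sum fun e _ => ?_)
  refine card_biUnion_le.trans (sum_le_sum fun f _ => ?_)
  exact card_image_le

theorem mem_Im {φ : ℕ → ℕ → ℕ → ℕ → (ℕ × ℕ) × (ℕ × ℕ)} {P y m e f p : ℕ} (hm : m ∈ Icc 1 P)
    (he : e ∈ Icc 1 P) (hf : f ∈ Icc 1 (2 * y / max m e)) (hp : p ∈ S m e f y) :
    φ m e f p ∈ Im φ P y := by
  unfold Im
  rw [mem_biUnion]
  refine ⟨m, hm, ?_⟩
  rw [mem_biUnion]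
  refine ⟨e, he, ?_⟩
  rw [mem_biUnion]
  refine ⟨f, hf, ?_⟩
  exact mem_image_of_mem _ hp

theorem collision {i j w w' y : ℕ} (hji : j < i) (hly : 8 * i + 3 ≤ y)
    (hp : (8 * i + 3).Prime) (hp' : (8 * j + 3).Prime) (hw'y : w' ≤ y)
    (hV : V (8 * i + 3) w = V (8 * j + 3) w') :
    ((8 * i + 3, w), (8 * j + 3, w')) ∈
      Im φA (Nat.sqrt (6 * y) + 1) y ∪ Im φB (Nat.sqrt (6 * y) + 1) y := by
  set P := Nat.sqrt (6 * y) + 1 with hP
  have hPsq : 6 * y < P * P := Nat.lt_succ_sqrt (6 * y)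
  unfold V at hV
  have hi2 : (8 * i + 3 - 1) / 2 = 4 * i + 1 := by omega
  have hj2 : (8 * j + 3 - 1) / 2 = 4 * j + 1 := by omega
  rw [hi2, hj2] at hV
  have hww : w < w' := by
    by_contra hcon
    push Not at hcon
    have h1 : w' ^ 2 ≤ w ^ 2 := Nat.pow_le_pow_left hcon 2
    have h2 : (8 * j + 3) ^ 2 < (8 * i + 3) ^ 2 := Nat.pow_lt_pow_left (by omega) (by norm_num)
    have h3 : (4 * j + 1) ^ 2 < (4 * i + 1) ^ 2 := Nat.pow_lt_pow_left (by omega) (by norm_num)
    omega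
  obtain ⟨u, rfl⟩ : ∃ u, i = j + u := ⟨i - j, by omega⟩
  obtain ⟨s, rfl⟩ : ∃ s, w' = w + s := ⟨w' - w, by omega⟩
  have hu : 1 ≤ u := by omega
  have hs : 1 ≤ s := by omega
  set v := 48 * j + 24 * u + 16 with hv
  set t := 2 * w + s with ht
  have huv : u * v = s * t := by
    have e1 : (8 * (j + u) + 3) ^ 2 + (4 * (j + u) + 1) ^ 2 + (4 * (j + u) + 1) ^ 2 =
      (8 * j + 3) ^ 2 + (4 * j + 1) ^ 2 + (4 * j + 1) ^ 2 + 4 * (u * v) := by
      rw [hv]; ring
    have e2 : 4 * (w + s) ^ 2 = 4 * w ^ 2 + 4 * (s * t) := by rw [ht]; ring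
    omega
  have hv6 : v = 6 * (8 * j + 3) + 24 * u - 2 := by omega
  have hvy : v ≤ 6 * y := by omega
  have hty : t ≤ 2 * y := by omega
  have hsy : s ≤ y := by omega
  have huy : u ≤ y := by omega
  have hvl : 6 * (8 * j + 3) ≤ v := by omega
  -- the four numbers
  obtain ⟨g, a, b, k, hg0, ha0, hb0, hk0, hua, hsb, hvb, htk⟩ :
      ∃ g a b k : ℕ, 0 < g ∧ 0 < a ∧ 0 < b ∧ 0 < k ∧ u = g * a ∧ s = g * b ∧ v = b * k ∧
        t = a * k := by
    have hg : 0 < Nat.gcd u s := Nat.gcd_pos_of_pos_left _ hu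
    obtain ⟨a, b, hab, hua, hsb⟩ := Nat.exists_coprime u s
    have ha0 : 0 < a := by
      rcases Nat.eq_zero_or_pos a with h0 | h0
      · subst h0; omega
      · exact h0
    have hb0 : 0 < b := by
      rcases Nat.eq_zero_or_pos b with h0 | h0
      · subst h0; omega
      · exact h0
    have h1 : a * v = b * t := by
      have : Nat.gcd u s * (a * v) = Nat.gcd u s * (b * t) := by
        calc Nat.gcd u s * (a * v) = (a * Nat.gcd u s) * v := by ring
          _ = u * v := by rw [← hua]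
          _ = s * t := huv
          _ = (b * Nat.gcd u s) * t := by rw [← hsb]
          _ = _ := by ring
      exact Nat.eq_of_mul_eq_mul_left hg this
    have h2 : b ∣ v := by
      have : b ∣ a * v := ⟨t, h1⟩
      exact hab.symm.dvd_of_dvd_mul_left this
    obtain ⟨k, hk⟩ := h2
    have h3 : t = a * k := by
      have : b * t = b * (a * k) := by rw [← h1, hk]; ring
      exact Nat.eq_of_mul_eq_mul_left hb0 this
    refine ⟨Nat.gcd u s, a, b, k, hg, ha0, hb0, ?_, ?_, ?_, hk, h3⟩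
    · rcases Nat.eq_zero_or_pos k with h0 | h0
      · subst h0; omega
      · exact h0
    · rw [mul_comm]; exact hua
    · rw [mul_comm]; exact hsb
  have hpl : 8 * j + 3 + 8 * (g * a) = 8 * (j + u) + 3 := by rw [← hua]; ring
  rw [mem_union]
  by_cases hA : g ≤ P ∧ k ≤ P
  · left
    have hS : 8 * j + 3 ∈ S k g a y := by
      rw [S, mem_filter, mem_Icc]
      refine ⟨⟨by omega, by omega⟩, ?_, hp', ?_, ?_⟩
      · rcases max_cases k g with ⟨h1, -⟩ | ⟨h1, -⟩
        · rw [h1]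
          exact Nat.mul_le_mul_right _ (by omega)
        · rw [h1]
          calc (8 * j + 3) * g ≤ v * g := Nat.mul_le_mul_right _ (by omega)
            _ = s * k := by rw [hvb, hsb]; ring
            _ ≤ y * k := Nat.mul_le_mul_right _ hsy
      · rw [hpl]; exact hp
      · rw [← hua, ← hv6, hvb]
        exact Dvd.intro_left _ rfl
    have hf : a ∈ Icc 1 (2 * y / max k g) := by
      rw [mem_Icc]
      refine ⟨ha0, ?_⟩
      rw [Nat.le_div_iff_mul_le (lt_of_lt_of_le hk0 (le_max_left _ _))]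
      rcases max_cases k g with ⟨h1, -⟩ | ⟨h1, -⟩
      · rw [h1, ← htk]; exact hty
      · rw [h1, mul_comm, ← hua]; omega
    have hmem := mem_Im (φ := φA) (P := P) (mem_Icc.2 ⟨hk0, hA.2⟩) (mem_Icc.2 ⟨hg0, hA.1⟩) hf hS
    have he : φA k g a (8 * j + 3) = ((8 * (j + u) + 3, w), (8 * j + 3, w + s)) := by
      unfold φA
      rw [← hua, ← hv6]
      have h1 : v / k = b := by rw [hvb]; exact Nat.mul_div_cancel _ hk0
      rw [h1, ← htk, ← hsb]
      have h2 : 8 * j + 3 + 8 * u = 8 * (j + u) + 3 := by ring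
      have h3 : (t - s) / 2 = w := by omega
      have h4 : (t + s) / 2 = w + s := by omega
      rw [h2, h3, h4]
    rw [he] at hmem
    exact hmem
  · right
    have hab : a ≤ P ∧ b ≤ P := by
      have key : ∀ c d : ℕ, P < c → c * d ≤ 6 * y → d ≤ P := by
        intro c d hc hcd
        by_contra hcon
        push Not at hcon
        have : P * P ≤ c * d := Nat.mul_le_mul hc.le hcon.le
        omega
      rcases not_and_or.1 hA with h1 | h1
      · push Not at h1
        exact ⟨key g a h1 (by rw [← hua]; omega), key g b h1 (by rw [← hsb]; omega)⟩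
      · push Not at h1
        exact ⟨key k a h1 (by rw [mul_comm, ← htk]; omega), key k b h1 (by rw [mul_comm, ← hvb]; exact hvy)⟩
    have hS : 8 * j + 3 ∈ S b a g y := by
      rw [S, mem_filter, mem_Icc]
      refine ⟨⟨by omega, by omega⟩, ?_, hp', ?_, ?_⟩
      · rcases max_cases b a with ⟨h1, -⟩ | ⟨h1, -⟩
        · rw [h1]
          exact Nat.mul_le_mul_right _ (by omega)
        · rw [h1]
          have h2 : 6 * ((8 * j + 3) * a) ≤ 2 * (y * b) := by
            calc 6 * ((8 * j + 3) * a) = (6 * (8 * j + 3)) * a := by ring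
              _ ≤ v * a := Nat.mul_le_mul_right _ hvl
              _ = b * t := by rw [hvb, htk]; ring
              _ ≤ b * (2 * y) := Nat.mul_le_mul_left _ hty
              _ = 2 * (y * b) := by ring
          omega
      · have : 8 * j + 3 + 8 * (a * g) = 8 * (j + u) + 3 := by rw [mul_comm a g]; exact hpl
        rw [this]; exact hp
      · rw [mul_comm a g, ← hua, ← hv6, hvb]
        exact Dvd.intro _ rfl
    have hf : g ∈ Icc 1 (2 * y / max b a) := by
      rw [mem_Icc]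
      refine ⟨hg0, ?_⟩
      rw [Nat.le_div_iff_mul_le (lt_of_lt_of_le hb0 (le_max_left _ _))]
      rcases max_cases b a with ⟨h1, -⟩ | ⟨h1, -⟩
      · rw [h1, ← hsb]; omega
      · rw [h1, ← hua]; omega
    have hmem := mem_Im (φ := φB) (P := P) (mem_Icc.2 ⟨hb0, hab.2⟩) (mem_Icc.2 ⟨ha0, hab.1⟩) hf hS
    have he : φB b a g (8 * j + 3) = ((8 * (j + u) + 3, w), (8 * j + 3, w + s)) := by
      unfold φB
      rw [mul_comm a g, ← hua, ← hv6]
      have h1 : v / b = k := by rw [hvb]; exact Nat.mul_div_cancel_left _ hb0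
      rw [h1, ← htk, ← hsb]
      have h2 : 8 * j + 3 + 8 * u = 8 * (j + u) + 3 := by ring
      have h3 : (t - s) / 2 = w := by omega
      have h4 : (t + s) / 2 = w + s := by omega
      rw [h2, h3, h4]
    rw [he] at hmem
    exact hmem

end Pool.Agent.R330.AF
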