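import Mathlib
import Pool.Agent.Helper602.MK.J3
import Pool.Agent.R154.FS.Sig
import Pool.Agent.R330.AF.Sv

/-!
# Mean squares of `σ(n)/n` over shifted primes
-/

namespace Pool.Agent.R330.AF

open Finset Filter
open Pool.Agent.R154.FS (S_nonneg one_le_S)

/-- the sum of the reciprocals of the divisors -/
noncomputable abbrev SS (m : ℕ) : ℝ := Pool.Agent.R154.FS.S m

theorem zsum : ∃ Z : ℝ, 0 < Z ∧ ∀ s : Finset ℕ, ∑ n ∈ s, (n : ℝ) ^ (-(3 / 2) : ℝ) ≤ Z := by
  have hsum : Summable (fun n : ℕ => (n : ℝ) ^ (-(3 / 2) : ℝ)) := by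
    rw [Real.summable_nat_rpow]
    norm_num
  refine ⟨∑' n : ℕ, (n : ℝ) ^ (-(3 / 2) : ℝ) + 1, ?_, fun s => ?_⟩
  · have : 0 ≤ ∑' n : ℕ, (n : ℝ) ^ (-(3 / 2) : ℝ) := tsum_nonneg fun n => by positivity
    linarith
  · have := hsum.sum_le_tsum s (fun n _ => by positivity)
    linarith

/-- truncated divisor sum -/
theorem SS_sq_le : ∃ C : ℝ, 0 < C ∧ ∀ n : ℕ, 1 ≤ n →
    SS n ^ 2 ≤ C * ∑ d ∈ n.divisors.filter (fun d => d * d ≤ n), (d : ℝ) ^ (-(1 / 2) : ℝ) := by
  obtain ⟨Z, hZ, hZs⟩ := zsum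
  refine ⟨Z * 2, by positivity, fun n hn => ?_⟩
  have h1 : SS n ^ 2 ≤ (∑ d ∈ n.divisors, (d : ℝ) ^ (-(3 / 2) : ℝ)) *
      ∑ d ∈ n.divisors, (d : ℝ) ^ (-(1 / 2) : ℝ) := by
    have h2 : SS n = ∑ d ∈ n.divisors, (d : ℝ) ^ (-(3 / 4) : ℝ) * (d : ℝ) ^ (-(1 / 4) : ℝ) := by
      unfold SS Pool.Agent.R154.FS.S
      apply sum_congr rfl
      intro d hd
      have hd0 : (0 : ℝ) < d := by exact_mod_cast Nat.pos_of_mem_divisors hd
      rw [← Real.rpow_add hd0]
      norm_num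
      rw [Real.rpow_neg_one]
    rw [h2]
    refine (sum_mul_sq_le_sq_mul_sq _ _ _).trans (le_of_eq ?_)
    congr 1
    · apply sum_congr rfl
      intro d hd
      have hd0 : (0 : ℝ) ≤ d := by positivity
      rw [← Real.rpow_natCast, ← Real.rpow_mul hd0]
      norm_num
    · apply sum_congr rfl
      intro d hd
      have hd0 : (0 : ℝ) ≤ d := by positivity
      rw [← Real.rpow_natCast, ← Real.rpow_mul hd0]
      norm_num
  have h3 : ∑ d ∈ n.divisors, (d : ℝ) ^ (-(1 / 2) : ℝ) ≤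
      2 * ∑ d ∈ n.divisors.filter (fun d => d * d ≤ n), (d : ℝ) ^ (-(1 / 2) : ℝ) := by
    rw [← sum_filter_add_sum_filter_not n.divisors (fun d => d * d ≤ n), two_mul]
    apply add_le_add_right
    have h4 : ∑ d ∈ n.divisors.filter (fun d => ¬ d * d ≤ n), (d : ℝ) ^ (-(1 / 2) : ℝ) ≤
        ∑ d ∈ n.divisors.filter (fun d => ¬ d * d ≤ n), ((n / d : ℕ) : ℝ) ^ (-(1 / 2) : ℝ) := by
      apply sum_le_sum
      intro d hd
      rw [mem_filter, Nat.mem_divisors] at hd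
      obtain ⟨⟨hdn, hn0⟩, hdd⟩ := hd
      have hd0 : 0 < d := Nat.pos_of_dvd_of_pos hdn (by omega)
      have hq0 : 0 < n / d := Nat.div_pos (Nat.le_of_dvd (by omega) hdn) hd0
      have hle : n / d ≤ d := by
        apply Nat.le_of_lt_succ
        rw [Nat.div_lt_iff_lt_mul hd0]
        push Not at hdd
        nlinarith
      apply Real.rpow_le_rpow_of_nonpos (by exact_mod_cast hq0) (by exact_mod_cast hle) (by norm_num)
    refine h4.trans ?_
    have h5 : ∑ d ∈ n.divisors.filter (fun d => ¬ d * d ≤ n), ((n / d : ℕ) : ℝ) ^ (-(1 / 2) : ℝ) =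
        ∑ e ∈ (n.divisors.filter (fun d => ¬ d * d ≤ n)).image (fun d => n / d),
          (e : ℝ) ^ (-(1 / 2) : ℝ) := by
      rw [sum_image]
      intro a ha b hb hab
      rw [mem_coe, mem_filter, Nat.mem_divisors] at ha hb
      simp only at hab
      have e1 := Nat.div_mul_cancel ha.1.1
      have e2 := Nat.div_mul_cancel hb.1.1
      rw [hab] at e1
      have hq0 : 0 < n / b := by
        rcases Nat.eq_zero_or_pos (n / b) with h0 | h0
        · rw [h0] at e2; omega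
        · exact h0
      exact Nat.eq_of_mul_eq_mul_left hq0 (by rw [e1, e2])
    rw [h5]
    apply sum_le_sum_of_subset_of_nonneg
    · intro e he
      rw [mem_image] at he
      obtain ⟨d, hd, rfl⟩ := he
      rw [mem_filter, Nat.mem_divisors] at hd
      obtain ⟨⟨hdn, hn0⟩, hdd⟩ := hd
      have hd0 : 0 < d := Nat.pos_of_dvd_of_pos hdn (by omega)
      rw [mem_filter, Nat.mem_divisors]
      refine ⟨⟨Nat.div_dvd_of_dvd hdn, hn0⟩, ?_⟩
      have hle : n / d ≤ d := by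
        apply Nat.le_of_lt_succ
        rw [Nat.div_lt_iff_lt_mul hd0]
        push Not at hdd
        nlinarith
      calc n / d * (n / d) ≤ n / d * d := Nat.mul_le_mul_left _ hle
        _ = n := Nat.div_mul_cancel hdn
    · intro e _ _
      positivity
  have h6 : 0 ≤ ∑ d ∈ n.divisors, (d : ℝ) ^ (-(1 / 2) : ℝ) := sum_nonneg fun d _ => by positivity
  calc SS n ^ 2 ≤ _ := h1
    _ ≤ Z * ∑ d ∈ n.divisors, (d : ℝ) ^ (-(1 / 2) : ℝ) := mul_le_mul_of_nonneg_right (hZs _) h6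
    _ ≤ Z * (2 * ∑ d ∈ n.divisors.filter (fun d => d * d ≤ n), (d : ℝ) ^ (-(1 / 2) : ℝ)) :=
        mul_le_mul_of_nonneg_left h3 hZ.le
    _ = _ := by ring

/-- Abel summation for a decreasing weight. -/
theorem abel2 (ρ f : ℕ → ℝ) (C : ℝ) (hC : ∀ N : ℕ, ∑ n ∈ Icc 1 N, ρ n ≤ C * N)
    (hf : ∀ n, 1 ≤ n → f (n + 1) ≤ f n) (hf0 : ∀ n, 0 ≤ f n) (N : ℕ) :
    ∑ n ∈ Icc 1 N, ρ n * f n ≤ C * ∑ n ∈ Icc 1 N, f n := by
  have key : ∀ (g : ℕ → ℝ) (N : ℕ), ∑ n ∈ Icc 1 N, g n * f n =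
      (∑ n ∈ Icc 1 N, g n) * f N + ∑ k ∈ range N, (∑ n ∈ Icc 1 k, g n) * (f k - f (k + 1)) := by
    intro g N
    induction N with
    | zero => simp
    | succ N ih =>
      rw [sum_Icc_succ_top (by omega), ih, sum_Icc_succ_top (by omega), sum_range_succ]
      ring
  have k1 := key ρ N
  have k2 := key (fun _ => (1 : ℝ)) N
  simp only [one_mul, sum_const, nsmul_eq_mul, mul_one, Nat.card_Icc, Nat.add_sub_cancel] at k2
  rw [k1, k2, mul_add, mul_sum]
  apply add_le_add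
  · calc (∑ n ∈ Icc 1 N, ρ n) * f N ≤ (C * N) * f N := mul_le_mul_of_nonneg_right (hC N) (hf0 N)
      _ = C * (N * f N) := by ring
  · apply sum_le_sum
    intro k _
    rcases Nat.eq_zero_or_pos k with h0 | h0
    · subst h0
      simp
    · calc (∑ n ∈ Icc 1 k, ρ n) * (f k - f (k + 1)) ≤ (C * k) * (f k - f (k + 1)) :=
            mul_le_mul_of_nonneg_right (hC k) (by linarith [hf k h0])
        _ = C * (k * (f k - f (k + 1))) := by ring

/-- Brun-Titchmarsh, for sets of primes in one residue class -/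
theorem bt_class : ∃ C : ℝ, 0 < C ∧ ∀ (A : Finset ℕ) (y d : ℕ), 1 ≤ d → d ≤ y → (∀ l ∈ A, l.Prime ∧ l ≤ y) →
    (∀ l ∈ A, ∀ l' ∈ A, l % d = l' % d) →
    (A.card : ℝ) ≤ C * rt d * (((y / d + 1 : ℕ) : ℝ) / Real.log ((y / d + 1 : ℕ) : ℝ)) := by
  obtain ⟨C, hC, h⟩ := Pool.Agent.Helper602.MK.N_J3.J3
  refine ⟨C, by linarith, fun A y d hd hdy hA hc => ?_⟩
  have hN : 2 ≤ y / d + 1 := by
    have := Nat.div_pos hdy (by omega : 0 < d)
    omega
  have hlog : 0 < Real.log ((y / d + 1 : ℕ) : ℝ) := Real.log_pos (by exact_mod_cast (by omega))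
  have hr := one_le_rt hd
  rcases A.eq_empty_or_nonempty with h0 | ⟨l0, hl0⟩
  · subst h0
    rw [card_empty, Nat.cast_zero]
    positivity
  · have h1 := h (l0 % d) d (y / d + 1) hd hN
    have h2 : A.card ≤ ((range (y / d + 1)).filter (fun t => (l0 % d + t * d).Prime)).card := by
      apply card_le_card_of_injOn (fun l => l / d)
      · intro l hl
        rw [mem_coe] at hl
        rw [mem_coe, mem_filter, mem_range]
        obtain ⟨hlp, hly⟩ := hA l hl
        have e1 : l0 % d + l / d * d = l := by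
          rw [hc l0 hl0 l hl]
          have := Nat.mod_add_div l d
          rw [mul_comm] at this
          rw [mul_comm]
          linarith [Nat.mod_add_div l d]
        refine ⟨?_, by rw [e1]; exact hlp⟩
        have := Nat.div_le_div_right (c := d) hly
        exact Nat.lt_succ_of_le this
      · intro l hl l' hl' he
        simp only at he
        have e1 := Nat.mod_add_div l d
        have e2 := Nat.mod_add_div l' d
        rw [hc l hl l' hl', he] at e1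
        omega
    calc (A.card : ℝ) ≤ (((range (y / d + 1)).filter (fun t => (l0 % d + t * d).Prime)).card : ℝ) := by
          exact_mod_cast h2
      _ ≤ C * ((d : ℝ) / (Nat.totient d : ℝ)) * ((y / d + 1 : ℕ) : ℝ) /
          Real.log ((y / d + 1 : ℕ) : ℝ) := h1
      _ = _ := by unfold rt; ring

/-- The mean square of `σ(n)/n` over values `n = v(ℓ)`, where each `d` divides `v(ℓ)` only for
primes `ℓ` in one class modulo `d`. -/
theorem mean_square : ∃ C : ℝ, 0 < C ∧ ∀ᶠ y : ℕ in atTop, ∀ (A : Finset ℕ) (v : ℕ → ℕ),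
    (∀ l ∈ A, l.Prime ∧ l ≤ y) → (∀ l ∈ A, 1 ≤ v l ∧ v l ≤ 15 * y) →
    (∀ d l l', l ∈ A → l' ∈ A → d ∣ v l → d ∣ v l' → l % d = l' % d) →
    ∑ l ∈ A, SS (v l) ^ 2 ≤ C * (y / Real.log y) := by
  obtain ⟨C1, hC1, hS⟩ := SS_sq_le
  obtain ⟨C2, hC2, hB⟩ := bt_class
  obtain ⟨C3, hC3, hm⟩ := moment
  obtain ⟨Z, hZ, hZs⟩ := zsum
  refine ⟨C1 * (C2 * 6 * (C3 * Z)), by positivity, ?_⟩
  filter_upwards [eventually_ge_atTop 100000] with y hy A v hA hv hd
  have hy0 : (0 : ℝ) < y := by positivity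
  have hyR : (100000 : ℝ) ≤ y := by exact_mod_cast hy
  have hlog : 0 < Real.log y := Real.log_pos (by linarith)
  set D := Nat.sqrt (15 * y) with hD
  have hDsq : D * D ≤ 15 * y := Nat.sqrt_le (15 * y)
  have hDR : (D : ℝ) * D ≤ 15 * y := by exact_mod_cast hDsq
  have hsq : √(y : ℝ) * √(y : ℝ) = y := Real.mul_self_sqrt hy0.le
  have hs0 : 0 < √(y : ℝ) := Real.sqrt_pos.2 hy0
  have hs300 : (300 : ℝ) ≤ √(y : ℝ) := by
    apply Real.le_sqrt_of_sq_le; linarith
  have hDle : (D : ℝ) ≤ 4 * √(y : ℝ) := by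
    apply le_of_sq_le_sq _ (by positivity)
    rw [mul_pow, Real.sq_sqrt hy0.le]
    nlinarith
  -- step 1
  have h1 : ∑ l ∈ A, SS (v l) ^ 2 ≤
      C1 * ∑ l ∈ A, ∑ d ∈ (Icc 1 D).filter (fun d => d ∣ v l), (d : ℝ) ^ (-(1 / 2) : ℝ) := by
    rw [mul_sum]
    apply sum_le_sum
    intro l hl
    refine (hS (v l) (hv l hl).1).trans ?_
    apply mul_le_mul_of_nonneg_left _ hC1.le
    apply sum_le_sum_of_subset_of_nonneg
    · intro d hd'
      rw [mem_filter, Nat.mem_divisors] at hd'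
      rw [mem_filter, mem_Icc]
      refine ⟨⟨Nat.pos_of_dvd_of_pos hd'.1.1 (by omega), ?_⟩, hd'.1.1⟩
      rw [hD, Nat.le_sqrt]
      exact hd'.2.trans (hv l hl).2
    · intro d _ _
      positivity
  -- step 2
  have h2 : ∑ l ∈ A, ∑ d ∈ (Icc 1 D).filter (fun d => d ∣ v l), (d : ℝ) ^ (-(1 / 2) : ℝ) =
      ∑ d ∈ Icc 1 D, ((A.filter (fun l => d ∣ v l)).card : ℝ) * (d : ℝ) ^ (-(1 / 2) : ℝ) := by
    simp only [sum_filter]
    rw [sum_comm]
    apply sum_congr rfl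
    intro d _
    rw [← sum_filter, sum_const, nsmul_eq_mul]
  -- step 3
  have h3 : ∀ d ∈ Icc 1 D, ((A.filter (fun l => d ∣ v l)).card : ℝ) * (d : ℝ) ^ (-(1 / 2) : ℝ) ≤
      (C2 * 6 * (y / Real.log y)) * (rt d ^ 6 * (d : ℝ) ^ (-(3 / 2) : ℝ)) := by
    intro d hd'
    rw [mem_Icc] at hd'
    have hd0 : (0 : ℝ) < d := by exact_mod_cast hd'.1
    have hdD : (d : ℝ) ≤ 4 * √(y : ℝ) := le_trans (by exact_mod_cast hd'.2) hDle
    have hdy : (d : ℝ) ≤ y := by
      calc (d : ℝ) ≤ 4 * √(y : ℝ) := hdD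
        _ ≤ √(y : ℝ) * √(y : ℝ) := by
          apply mul_le_mul_of_nonneg_right _ hs0.le
          linarith
        _ = y := hsq
    have hdyN : d ≤ y := by exact_mod_cast hdy
    have h4 := hB (A.filter (fun l => d ∣ v l)) y d hd'.1 hdyN
      (fun l hl => hA l (mem_filter.1 hl).1)
      (fun l hl l' hl' => hd d l l' (mem_filter.1 hl).1 (mem_filter.1 hl').1 (mem_filter.1 hl).2
        (mem_filter.1 hl').2)
    have h5 : (y : ℝ) / d ≤ ((y / d + 1 : ℕ) : ℝ) := by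
      rw [div_le_iff₀ hd0]
      have := Nat.lt_mul_div_succ y (show 0 < d by omega)
      have h2 : (y : ℝ) < d * (((y / d : ℕ) : ℝ) + 1) := by exact_mod_cast this
      push_cast
      linarith
    have h6 : ((y / d + 1 : ℕ) : ℝ) ≤ 2 * (y / d) := by
      have h7 : ((y / d : ℕ) : ℝ) ≤ y / d := Nat.cast_div_le
      have h8 : 1 ≤ (y : ℝ) / d := by rw [le_div_iff₀ hd0]; linarith
      push_cast
      linarith
    have h7 : √(y : ℝ) / 4 ≤ (y : ℝ) / d := by
      rw [div_le_div_iff₀ (by norm_num) hd0]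
      calc √(y : ℝ) * d ≤ √(y : ℝ) * (4 * √(y : ℝ)) := mul_le_mul_of_nonneg_left hdD hs0.le
        _ = 4 * (√(y : ℝ) * √(y : ℝ)) := by ring
        _ = y * 4 := by rw [hsq]; ring
    have h8 : Real.log y / 3 ≤ Real.log ((y / d + 1 : ℕ) : ℝ) := by
      have e1 : Real.log (√(y : ℝ) / 4) ≤ Real.log ((y / d + 1 : ℕ) : ℝ) :=
        Real.log_le_log (by positivity) (h7.trans h5)
      have e2 : Real.log (√(y : ℝ) / 4) = Real.log y / 2 - Real.log 4 := by
        rw [Real.log_div (by positivity) (by norm_num), Real.log_sqrt hy0.le]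
      have e3 : 6 * Real.log 4 ≤ Real.log y := by
        have : 6 * Real.log 4 = Real.log (4 ^ 6) := by
          rw [Real.log_pow]; norm_num
        rw [this]
        apply Real.log_le_log (by norm_num)
        linarith
      linarith
    have h9 : ((y / d + 1 : ℕ) : ℝ) / Real.log ((y / d + 1 : ℕ) : ℝ) ≤
        6 * ((y : ℝ) / Real.log y) * (1 / d) := by
      calc ((y / d + 1 : ℕ) : ℝ) / Real.log ((y / d + 1 : ℕ) : ℝ) ≤
            2 * (y / d) / (Real.log y / 3) :=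
            div_le_div₀ (by positivity) h6 (by positivity) h8
        _ = _ := by field_simp; norm_num
    have hr := one_le_rt hd'.1
    have hr6 : rt d ≤ rt d ^ 6 := le_self_pow₀ hr (by norm_num)
    have e3 : (1 / (d : ℝ)) * (d : ℝ) ^ (-(1 / 2) : ℝ) = (d : ℝ) ^ (-(3 / 2) : ℝ) := by
      rw [one_div, ← Real.rpow_neg_one, ← Real.rpow_add hd0]
      norm_num
    have hpow : 0 ≤ (d : ℝ) ^ (-(1 / 2) : ℝ) := by positivity
    calc ((A.filter (fun l => d ∣ v l)).card : ℝ) * (d : ℝ) ^ (-(1 / 2) : ℝ)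
        ≤ (C2 * rt d * (((y / d + 1 : ℕ) : ℝ) / Real.log ((y / d + 1 : ℕ) : ℝ))) *
          (d : ℝ) ^ (-(1 / 2) : ℝ) := mul_le_mul_of_nonneg_right h4 hpow
      _ ≤ (C2 * rt d ^ 6 * (6 * ((y : ℝ) / Real.log y) * (1 / d))) * (d : ℝ) ^ (-(1 / 2) : ℝ) := by
          apply mul_le_mul_of_nonneg_right _ hpow
          apply mul_le_mul (mul_le_mul_of_nonneg_left hr6 hC2.le) h9
          · apply div_nonneg (by positivity)
            exact le_trans (by positivity) h8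
          · positivity
      _ = (C2 * 6 * (y / Real.log y)) * (rt d ^ 6 * ((1 / (d : ℝ)) * (d : ℝ) ^ (-(1 / 2) : ℝ))) := by
          ring
      _ = _ := by rw [e3]
  have h10 := abel2 (fun n => rt n ^ 6) (fun n => (n : ℝ) ^ (-(3 / 2) : ℝ)) C3 hm
    (fun n hn => by
      apply Real.rpow_le_rpow_of_nonpos (by exact_mod_cast hn) (by push_cast; linarith) (by norm_num))
    (fun n => by positivity) D
  calc ∑ l ∈ A, SS (v l) ^ 2 ≤ _ := h1
    _ = C1 * ∑ d ∈ Icc 1 D, ((A.filter (fun l => d ∣ v l)).card : ℝ) * (d : ℝ) ^ (-(1 / 2) : ℝ) := by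
        rw [h2]
    _ ≤ C1 * ∑ d ∈ Icc 1 D, (C2 * 6 * (y / Real.log y)) * (rt d ^ 6 * (d : ℝ) ^ (-(3 / 2) : ℝ)) :=
        mul_le_mul_of_nonneg_left (sum_le_sum h3) hC1.le
    _ = C1 * ((C2 * 6 * (y / Real.log y)) * ∑ d ∈ Icc 1 D, (rt d ^ 6 * (d : ℝ) ^ (-(3 / 2) : ℝ))) := by
        congr 1
        rw [mul_sum]
    _ ≤ C1 * ((C2 * 6 * (y / Real.log y)) * (C3 * Z)) := by
        apply mul_le_mul_of_nonneg_left _ hC1.le
        apply mul_le_mul_of_nonneg_left _ (by positivity)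
        exact h10.trans (mul_le_mul_of_nonneg_left (hZs _) (by linarith))
    _ = _ := by ring

end Pool.Agent.R330.AF
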