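import Mathlib

/-!
# Prime factors of `2^ℓ + 2^((ℓ+1)/2) + 1`
-/

namespace Pool.Agent.R330.AF

open Finset

/-- Prime factors of the Aurifeuillian number `2^ℓ + 2^((ℓ-1)/2) + 2^((ℓ-1)/2) + 1`, with
`ℓ = 8 j + 3` prime. -/
theorem prime_factor {j q : ℕ} (hl : (8 * j + 3).Prime) (hq : q.Prime)
    (hd : q ∣ 2 ^ (8 * j + 3) + 2 ^ (4 * j + 1) + 2 ^ (4 * j + 1) + 1) :
    ∃ h : ℕ, 1 ≤ h ∧ q = 4 * h * (8 * j + 3) + 1 := by
  -- q is odd
  have hq2 : q ≠ 2 := by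
    rintro rfl
    have e : 2 ^ (8 * j + 3) + 2 ^ (4 * j + 1) + 2 ^ (4 * j + 1) + 1 =
        2 * (2 ^ (8 * j + 2) + 2 ^ (4 * j) + 2 ^ (4 * j)) + 1 := by ring
    rw [e] at hd
    omega
  -- q ≠ 3 and q ≠ 5
  have hmod : ∀ i : ℕ, 2 ^ (4 * i) % 15 = 1 := by
    intro i
    rw [pow_mul, Nat.pow_mod]
    norm_num
  have hN15 : (2 ^ (8 * j + 3) + 2 ^ (4 * j + 1) + 2 ^ (4 * j + 1) + 1) % 15 = 13 := by
    have e1 : 2 ^ (8 * j + 3) = 2 ^ (4 * (2 * j)) * 8 := by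
      rw [← mul_assoc]; norm_num [pow_add]
    have e2 : 2 ^ (4 * j + 1) = 2 ^ (4 * j) * 2 := by rw [pow_add]; norm_num
    rw [e1, e2]
    have h1 := hmod (2 * j)
    have h2 := hmod j
    omega
  have hq15 : ¬ q ∣ 15 := by
    intro h15
    have h3 : q ∣ 13 := by
      rw [← hN15]
      exact (Nat.dvd_mod_iff h15).2 hd
    have h4 : q ∣ Nat.gcd 15 13 := Nat.dvd_gcd h15 h3
    norm_num at h4
    exact hq.one_lt.ne' h4
  haveI : Fact q.Prime := ⟨hq⟩
  -- the identity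
  have hz : ((2 : ZMod q)) ^ (2 * (8 * j + 3)) = -1 := by
    have h1 : (((2 ^ (8 * j + 3) + 2 ^ (4 * j + 1) + 2 ^ (4 * j + 1) + 1 : ℕ)) : ZMod q) = 0 :=
      (ZMod.natCast_eq_zero_iff _ _).2 hd
    push_cast at h1
    have e : ((2 : ZMod q)) ^ (2 * (8 * j + 3)) + 1 =
        (2 ^ (8 * j + 3) + 2 ^ (4 * j + 1) + 2 ^ (4 * j + 1) + 1) *
        (2 ^ (8 * j + 3) - 2 ^ (4 * j + 2) + 1) := by ring
    rw [h1, zero_mul] at e
    exact eq_neg_of_add_eq_zero_left e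
  have hneg : (-1 : ZMod q) ≠ 1 := by
    intro h
    have h2 : (2 : ZMod q) = 0 := by
      have : (1 : ZMod q) + 1 = 0 := by
        nth_rewrite 1 [← h]
        ring
      rw [← this]; norm_num
    have h3 : ((2 : ℕ) : ZMod q) = 0 := by exact_mod_cast h2
    rw [ZMod.natCast_eq_zero_iff] at h3
    exact hq2 ((Nat.prime_dvd_prime_iff_eq hq Nat.prime_two).1 h3)
  have h20 : (2 : ZMod q) ≠ 0 := by
    intro h2
    have h3 : ((2 : ℕ) : ZMod q) = 0 := by exact_mod_cast h2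
    rw [ZMod.natCast_eq_zero_iff] at h3
    exact hq2 ((Nat.prime_dvd_prime_iff_eq hq Nat.prime_two).1 h3)
  -- order
  set o := orderOf (2 : ZMod q) with ho
  have ho1 : o ∣ 4 * (8 * j + 3) := by
    apply orderOf_dvd_of_pow_eq_one
    have : (2 : ZMod q) ^ (4 * (8 * j + 3)) = ((2 : ZMod q) ^ (2 * (8 * j + 3))) ^ 2 := by ring
    rw [this, hz]; ring
  have ho2 : ¬ o ∣ 2 * (8 * j + 3) := by
    intro h
    have := orderOf_dvd_iff_pow_eq_one.1 h
    rw [hz] at this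
    exact hneg this
  have ho4 : ¬ o ∣ 4 := by
    intro h
    have h1 := orderOf_dvd_iff_pow_eq_one.1 h
    have h2 : ((15 : ℕ) : ZMod q) = 0 := by
      have : ((15 : ℕ) : ZMod q) = (2 : ZMod q) ^ 4 - 1 := by norm_num
      rw [this, h1, sub_self]
    rw [ZMod.natCast_eq_zero_iff] at h2
    exact hq15 h2
  have hoq : o ∣ q - 1 := by
    apply orderOf_dvd_of_pow_eq_one
    exact ZMod.pow_card_sub_one_eq_one h20
  -- ℓ ∣ o
  have hlo : (8 * j + 3) ∣ o := by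
    by_contra hcon
    have hc : Nat.Coprime o (8 * j + 3) := ((Nat.Prime.coprime_iff_not_dvd hl).2 hcon).symm
    exact ho4 (hc.dvd_of_dvd_mul_right ho1)
  -- 4 ∣ o
  have h4o : 4 ∣ o := by
    obtain ⟨t, ht⟩ := hlo
    have hlpos : 0 < 8 * j + 3 := by omega
    have ht4 : t ∣ 4 := by
      rw [ht, mul_comm 4] at ho1
      exact Nat.dvd_of_mul_dvd_mul_left hlpos ho1
    have ht2 : ¬ t ∣ 2 := by
      intro h
      apply ho2
      rw [ht, mul_comm 2]
      exact Nat.mul_dvd_mul_left _ h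
    have htle : t ≤ 4 := Nat.le_of_dvd (by norm_num) ht4
    have : t = 4 := by
      interval_cases t
      · norm_num at ht4
      · exact absurd (one_dvd 2) ht2
      · exact absurd (dvd_refl 2) ht2
      · norm_num at ht4
      · rfl
    rw [ht, this]
    exact Dvd.intro_left _ rfl
  have hcop : Nat.Coprime 4 (8 * j + 3) := by
    have h2 : Nat.Coprime 2 (8 * j + 3) := by
      rw [Nat.coprime_two_left, Nat.odd_iff]; omega
    exact Nat.Coprime.pow_left 2 h2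
  have h4l : 4 * (8 * j + 3) ∣ o := hcop.mul_dvd_of_dvd_of_dvd h4o hlo
  obtain ⟨h, hh⟩ := h4l.trans hoq
  have hq1 := hq.one_lt
  refine ⟨h, ?_, ?_⟩
  · rcases Nat.eq_zero_or_pos h with h0 | h0
    · subst h0; omega
    · exact h0
  · have : 4 * h * (8 * j + 3) = 4 * (8 * j + 3) * h := by ring
    rw [this, ← hh]
    omega

end Pool.Agent.R330.AF
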