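import Mathlib
import Pool.Agent.R154.FS.Main
import Pool.Agent.R330.AF.Dsum

/-!
# Second moment for four squares with prescribed sums
-/

namespace Pool.Agent.R330.AF

open Finset Filter
open Pool.Agent.R154.FS (S_nonneg S_mul quad quad_card So Se div_sum_le harm)

/-- the quadratic polynomial `l² + ((l+1)/2)²` -/
def qq (l : ℕ) : ℕ := l ^ 2 + ((l + 1) / 2) ^ 2

/-- the value -/
def V2 (p : ℕ × (ℕ × ℕ)) : ℕ := qq p.1 + p.2.1 ^ 2 + p.2.2 ^ 2

/-- the parameters -/
def T2 (L : Finset ℕ) (M : ℕ) : Finset (ℕ × (ℕ × ℕ)) := L ×ˢ (So M ×ˢ Se M)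

/-- the coincidences -/
def E2 (L : Finset ℕ) (M : ℕ) : Finset ((ℕ × (ℕ × ℕ)) × (ℕ × (ℕ × ℕ))) :=
  (T2 L M ×ˢ T2 L M).filter (fun p => V2 p.1 = V2 p.2)

theorem E2_le (L : Finset ℕ) (M : ℕ) :
    (E2 L M).card ≤ ∑ a ∈ L, ∑ a' ∈ L, (quad M ((qq a' : ℤ) - (qq a : ℤ))).card := by
  classical
  have h3 : (E2 L M).card = ∑ v ∈ L ×ˢ L, ((E2 L M).filter (fun p => (p.1.1, p.2.1) = v)).card :=
    Finset.card_eq_sum_card_fiberwise (fun p hp => by
      unfold E2 T2 at hp
      simp only [coe_filter, mem_product, Set.mem_ofPred_eq] at hp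
      rw [mem_coe, mem_product]
      exact ⟨hp.1.1.1, hp.1.2.1⟩)
  rw [h3, Finset.sum_product]
  apply Finset.sum_le_sum
  intro a _
  apply Finset.sum_le_sum
  intro a' _
  refine Finset.card_le_card_of_injOn (fun p => (p.1.2, p.2.2)) ?_ ?_
  · intro p hp
    rw [mem_coe, mem_filter] at hp
    obtain ⟨hp, he⟩ := hp
    unfold E2 T2 So Se V2 at hp
    simp only [mem_filter, mem_product, mem_Icc] at hp
    simp only [Prod.mk.injEq] at he
    obtain ⟨he1, he2⟩ := he
    rw [he1, he2] at hp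
    unfold quad
    simp only [coe_filter, mem_product, mem_Icc, Set.mem_ofPred_eq]
    refine ⟨by tauto, ?_⟩
    have h5 : ((qq a : ℤ) + (p.1.2.1 : ℤ) ^ 2 + (p.1.2.2 : ℤ) ^ 2) =
        (qq a' : ℤ) + (p.2.2.1 : ℤ) ^ 2 + (p.2.2.2 : ℤ) ^ 2 := by exact_mod_cast hp.2
    linarith
  · intro p hp p' hp' he
    rw [mem_coe, mem_filter] at hp hp'
    have e1 := hp.2
    have e2 := hp'.2
    simp only [Prod.mk.injEq] at e1 e2 he
    obtain ⟨e1a, e1b⟩ := e1
    obtain ⟨e2a, e2b⟩ := e2
    apply Prod.ext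
    · apply Prod.ext
      · rw [e1a, e2a]
      · exact he.1
    · apply Prod.ext
      · rw [e1b, e2b]
      · exact he.2

/-- the divisor sums -/
noncomputable def DD2 (M a a' : ℕ) : ℝ :=
  ∑ g ∈ (Icc 1 (2 * M)).filter (fun g : ℕ => (g : ℤ) ∣ (qq a' : ℤ) - (qq a : ℤ)), (1 : ℝ) / g

theorem four_diff {a a' : ℕ} (ha : a % 8 = 3) (ha' : a' % 8 = 3) :
    4 * ((qq a' : ℤ) - (qq a : ℤ)) = ((a' : ℤ) - a) * ((5 * (a + a') + 2 : ℕ) : ℤ) := by
  obtain ⟨i, rfl⟩ : ∃ i, a = 8 * i + 3 := ⟨a / 8, by omega⟩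
  obtain ⟨j, rfl⟩ : ∃ j, a' = 8 * j + 3 := ⟨a' / 8, by omega⟩
  unfold qq
  have h1 : (8 * i + 3 + 1) / 2 = 4 * i + 2 := by omega
  have h2 : (8 * j + 3 + 1) / 2 = 4 * j + 2 := by omega
  rw [h1, h2]
  push_cast
  ring

theorem DD2_off (M : ℕ) {a a' : ℕ} (ha : a % 8 = 3) (ha' : a' % 8 = 3) (hne : a' ≠ a) :
    DD2 M a a' ≤ (SS ((a' - a) + (a - a')) ^ 2 + SS (5 * (a + a') + 2) ^ 2) / 2 := by
  have h4 := four_diff ha ha'
  have hne' : ((a' : ℤ) - a) ≠ 0 := by omega
  have hne4 : 4 * ((qq a' : ℤ) - (qq a : ℤ)) ≠ 0 := by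
    rw [h4]
    apply mul_ne_zero hne'
    exact_mod_cast (by omega : 5 * (a + a') + 2 ≠ 0)
  have h1 : DD2 M a a' ≤ ∑ g ∈ (Icc 1 (2 * M)).filter
      (fun g : ℕ => (g : ℤ) ∣ 4 * ((qq a' : ℤ) - (qq a : ℤ))), (1 : ℝ) / g := by
    unfold DD2
    apply sum_le_sum_of_subset_of_nonneg
    · intro g hg
      rw [mem_filter] at hg ⊢
      exact ⟨hg.1, Dvd.dvd.mul_left hg.2 4⟩
    · intro g _ _
      positivity
  have h2 := div_sum_le M _ hne4
  have h3 : (4 * ((qq a' : ℤ) - (qq a : ℤ))).natAbs = ((a' - a) + (a - a')) * (5 * (a + a') + 2) := by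
    rw [h4, Int.natAbs_mul, Int.natAbs_natCast]
    congr 1
    omega
  rw [h3] at h2
  have h5 := S_mul ((a' - a) + (a - a')) (5 * (a + a') + 2)
  have n1 := S_nonneg ((a' - a) + (a - a'))
  have n2 := S_nonneg (5 * (a + a') + 2)
  have h6 : Pool.Agent.R154.FS.S ((a' - a) + (a - a')) * Pool.Agent.R154.FS.S (5 * (a + a') + 2) ≤
      (Pool.Agent.R154.FS.S ((a' - a) + (a - a')) ^ 2 +
        Pool.Agent.R154.FS.S (5 * (a + a') + 2) ^ 2) / 2 := by
    nlinarith [sq_nonneg (Pool.Agent.R154.FS.S ((a' - a) + (a - a')) -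
      Pool.Agent.R154.FS.S (5 * (a + a') + 2))]
  exact h1.trans (h2.trans (h5.trans h6))

theorem DD2_diag (M a : ℕ) : DD2 M a a ≤ 1 + Real.log ((2 * M : ℕ) : ℝ) := by
  unfold DD2
  calc _ ≤ ∑ g ∈ Icc 1 (2 * M), (1 : ℝ) / g := by
        apply Finset.sum_le_sum_of_subset_of_nonneg (Finset.filter_subset _ _)
        intro g _ _
        positivity
    _ ≤ 1 + Real.log ((2 * M : ℕ) : ℝ) := harm _

theorem E2_bound : ∃ C : ℝ, 0 < C ∧ ∀ᶠ y : ℕ in atTop, ∀ (L : Finset ℕ) (M : ℕ),
    (∀ l ∈ L, l.Prime ∧ l ≤ y ∧ l % 8 = 3) → 1 ≤ M → M ≤ y →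
    ((E2 L M).card : ℝ) ≤ C * (M : ℝ) ^ 2 * (L.card * (y / Real.log y)) := by
  obtain ⟨C, hC, hms⟩ := mean_square
  refine ⟨16 * (3 + C), by positivity, ?_⟩
  have hcast : Tendsto (fun y : ℕ => (y : ℝ)) atTop atTop := tendsto_natCast_atTop_atTop
  have ev2 : ∀ᶠ y : ℕ in atTop, Real.log y ≤ √(y : ℝ) := by
    have h1 : Tendsto (fun x : ℝ => Real.log x / x ^ ((1 : ℝ) / 2)) atTop (nhds 0) :=
      (isLittleO_log_rpow_atTop (by norm_num : (0 : ℝ) < 1 / 2)).tendsto_div_nhds_zero
    have h2 := (h1.comp hcast).eventually_lt_const (show (0 : ℝ) < 1 by norm_num)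
    filter_upwards [h2, eventually_ge_atTop 1] with y hy hy1
    have hy0 : (0 : ℝ) < y := by exact_mod_cast hy1
    simp only [Function.comp] at hy
    rw [← Real.sqrt_eq_rpow, div_lt_iff₀ (Real.sqrt_pos.2 hy0), one_mul] at hy
    exact hy.le
  filter_upwards [hms, ev2, eventually_ge_atTop 10] with y hy hlogy hy10 L M hL hM hMy
  have hy0 : (0 : ℝ) < y := by positivity
  have hy10R : (10 : ℝ) ≤ y := by exact_mod_cast hy10
  have hlog1 : 1 ≤ Real.log y := by
    rw [← Real.log_exp 1]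
    apply Real.log_le_log (Real.exp_pos _)
    have := Real.exp_one_lt_d9
    linarith
  have hlog : 0 < Real.log y := by linarith
  have hsq : √(y : ℝ) * √(y : ℝ) = y := Real.mul_self_sqrt hy0.le
  have hlogQ : Real.log y ≤ y / Real.log y := by
    rw [le_div_iff₀ hlog]
    calc Real.log y * Real.log y ≤ √(y : ℝ) * √(y : ℝ) :=
          mul_le_mul hlogy hlogy hlog.le (Real.sqrt_nonneg _)
      _ = y := hsq
  -- one row
  have hrow : ∀ a ∈ L, ∑ a' ∈ L, DD2 M a a' ≤ (3 + C) * (y / Real.log y) := by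
    intro a ha
    obtain ⟨hap, hay, ha8⟩ := hL a ha
    rw [← add_sum_erase L _ ha]
    have h1 : DD2 M a a ≤ 3 * (y / Real.log y) := by
      refine (DD2_diag M a).trans ?_
      have h2 : Real.log ((2 * M : ℕ) : ℝ) ≤ 2 * Real.log y := by
        have : 2 * Real.log y = Real.log ((y : ℝ) ^ 2) := by
          rw [Real.log_pow]; norm_num
        rw [this]
        apply Real.log_le_log
        · exact_mod_cast (by omega : 0 < 2 * M)
        · have h3 : ((2 * M : ℕ) : ℝ) ≤ 2 * y := by exact_mod_cast (by omega : 2 * M ≤ 2 * y)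
          nlinarith
      linarith
    have h2 : ∑ a' ∈ L.erase a, DD2 M a a' ≤ C * (y / Real.log y) := by
      have h3 := hy (L.erase a) (fun l => (l - a) + (a - l))
        (fun l hl => ⟨(hL l (mem_of_mem_erase hl)).1, (hL l (mem_of_mem_erase hl)).2.1⟩)
        (fun l hl => by
          have h4 := ne_of_mem_erase hl
          have h5 := (hL l (mem_of_mem_erase hl)).2.1
          constructor <;> omega)
        (fun d l l' hl hl' hd hd' => by
          have key : ∀ b : ℕ, d ∣ (b - a) + (a - b) → b % d = a % d := by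
            intro b hb
            rcases le_total a b with h | h
            · have : a - b = 0 := by omega
              rw [this, add_zero] at hb
              exact ((Nat.modEq_iff_dvd' h).2 hb).symm
            · have : b - a = 0 := by omega
              rw [this, zero_add] at hb
              exact (Nat.modEq_iff_dvd' h).2 hb
          rw [key l hd, key l' hd'])
      have h4 := hy (L.erase a) (fun l => 5 * (a + l) + 2)
        (fun l hl => ⟨(hL l (mem_of_mem_erase hl)).1, (hL l (mem_of_mem_erase hl)).2.1⟩)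
        (fun l hl => by
          have h5 := (hL l (mem_of_mem_erase hl)).2.1
          constructor <;> omega)
        (fun d l l' hl hl' hd hd' => by
          have h5d : Nat.Coprime d 5 := by
            rw [Nat.coprime_comm, Nat.Prime.coprime_iff_not_dvd (by norm_num)]
            intro h5
            have := h5.trans hd
            omega
          have key : ∀ b c : ℕ, b ≤ c → d ∣ 5 * (a + b) + 2 → d ∣ 5 * (a + c) + 2 →
              b % d = c % d := by
            intro b c hbc hb hc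
            have h6 : d ∣ 5 * (c - b) := by
              have := Nat.dvd_sub hc hb
              have e : 5 * (a + c) + 2 - (5 * (a + b) + 2) = 5 * (c - b) := by omega
              rw [e] at this
              exact this
            have h7 : d ∣ c - b := h5d.dvd_of_dvd_mul_left h6
            exact (Nat.modEq_iff_dvd' hbc).2 h7
          rcases le_total l l' with h | h
          · exact key l l' h hd hd'
          · exact (key l' l h hd' hd).symm)
      have h5 : ∑ a' ∈ L.erase a, DD2 M a a' ≤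
          ∑ a' ∈ L.erase a, (SS ((a' - a) + (a - a')) ^ 2 + SS (5 * (a + a') + 2) ^ 2) / 2 := by
        apply sum_le_sum
        intro a' ha'
        exact DD2_off M ha8 (hL a' (mem_of_mem_erase ha')).2.2 (ne_of_mem_erase ha')
      rw [← sum_div, sum_add_distrib] at h5
      linarith
    linarith
  have h1 : ((E2 L M).card : ℝ) ≤ ∑ a ∈ L, ∑ a' ∈ L, 16 * (M : ℝ) ^ 2 * DD2 M a a' := by
    have h2 : ((E2 L M).card : ℝ) ≤ ∑ a ∈ L, ∑ a' ∈ L,
        ((quad M ((qq a' : ℤ) - (qq a : ℤ))).card : ℝ) := by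
      exact_mod_cast E2_le L M
    refine h2.trans ?_
    exact Finset.sum_le_sum fun a _ => Finset.sum_le_sum fun a' _ => quad_card M _
  calc ((E2 L M).card : ℝ) ≤ ∑ a ∈ L, ∑ a' ∈ L, 16 * (M : ℝ) ^ 2 * DD2 M a a' := h1
    _ = 16 * (M : ℝ) ^ 2 * ∑ a ∈ L, ∑ a' ∈ L, DD2 M a a' := by
        rw [mul_sum]
        apply sum_congr rfl
        intro a _
        rw [mul_sum]
    _ ≤ 16 * (M : ℝ) ^ 2 * ∑ a ∈ L, (3 + C) * (y / Real.log y) := by
        apply mul_le_mul_of_nonneg_left _ (by positivity)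
        exact sum_le_sum hrow
    _ = 16 * (3 + C) * (M : ℝ) ^ 2 * (L.card * (y / Real.log y)) := by
        rw [sum_const, nsmul_eq_mul]
        ring

/-- Paley-Zygmund for the multiplicities of a function. -/
theorem paley {α : Type*} [DecidableEq α] (T : Finset α) (f : α → ℕ) (K : ℝ) (hK : 0 < K)
    (hI : ((T.image f).card : ℝ) ≤ K) :
    ((T.card : ℝ) / 2) ^ 2 ≤
      (((T.image f).filter (fun v => (T.card : ℝ) / (2 * K) ≤
        ((T.filter (fun p => f p = v)).card : ℝ))).card : ℝ) *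
      (((T ×ˢ T).filter (fun p => f p.1 = f p.2)).card : ℝ) := by
  classical
  set I := T.image f with hIdef
  set E := (T ×ˢ T).filter (fun p => f p.1 = f p.2) with hE
  set r : ℕ → ℝ := fun v => ((T.filter (fun p => f p = v)).card : ℝ) with hr
  set B := I.filter (fun v => (T.card : ℝ) / (2 * K) ≤ r v) with hB
  have h1 : (T.card : ℝ) = ∑ v ∈ I, r v := by
    have : T.card = ∑ v ∈ I, (T.filter (fun p => f p = v)).card :=
      Finset.card_eq_sum_card_fiberwise (fun p hp => Finset.mem_image_of_mem _ hp)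
    simp only [hr]
    exact_mod_cast this
  have h2 : (E.card : ℝ) = ∑ v ∈ I, r v ^ 2 := by
    have h3 : E.card = ∑ v ∈ I, (E.filter (fun p => f p.1 = v)).card :=
      Finset.card_eq_sum_card_fiberwise (fun p hp => by
        rw [hE, mem_coe, mem_filter, mem_product] at hp
        exact Finset.mem_image_of_mem _ hp.1.1)
    have h4 : E.card = ∑ v ∈ I, (T.filter (fun p => f p = v)).card ^ 2 := by
      rw [h3]
      apply Finset.sum_congr rfl
      intro v _
      rw [pow_two, ← Finset.card_product]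
      congr 1
      ext p
      rw [hE]
      simp only [mem_filter, mem_product]
      constructor
      · rintro ⟨⟨⟨a, b⟩, c⟩, d⟩
        exact ⟨⟨a, d⟩, b, by rw [← c]; exact d⟩
      · rintro ⟨⟨a, b⟩, c, d⟩
        exact ⟨⟨⟨a, c⟩, by rw [b, d]⟩, b⟩
    simp only [hr]
    exact_mod_cast h4
  have h3 : (T.card : ℝ) / 2 ≤ ∑ v ∈ B, r v := by
    have h4 : ∑ v ∈ I.filter (fun v => ¬ (T.card : ℝ) / (2 * K) ≤ r v), r v ≤ (T.card : ℝ) / 2 := by
      calc ∑ v ∈ I.filter (fun v => ¬ (T.card : ℝ) / (2 * K) ≤ r v), r v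
          ≤ ∑ v ∈ I.filter (fun v => ¬ (T.card : ℝ) / (2 * K) ≤ r v), (T.card : ℝ) / (2 * K) := by
            apply sum_le_sum
            intro v hv
            rw [mem_filter] at hv
            linarith [not_le.1 hv.2]
        _ = ((I.filter (fun v => ¬ (T.card : ℝ) / (2 * K) ≤ r v)).card : ℝ) *
            ((T.card : ℝ) / (2 * K)) := by rw [sum_const, nsmul_eq_mul]
        _ ≤ K * ((T.card : ℝ) / (2 * K)) := by
            apply mul_le_mul_of_nonneg_right _ (by positivity)
            refine le_trans ?_ hI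
            exact_mod_cast card_filter_le _ _
        _ = (T.card : ℝ) / 2 := by field_simp
    have h5 := sum_filter_add_sum_filter_not I (fun v => (T.card : ℝ) / (2 * K) ≤ r v) r
    linarith
  have h6 := @sq_sum_le_card_mul_sum_sq ℕ ℝ _ _ _ _ B r
  calc ((T.card : ℝ) / 2) ^ 2 ≤ (∑ v ∈ B, r v) ^ 2 := pow_le_pow_left₀ (by positivity) h3 2
    _ ≤ (B.card : ℝ) * ∑ v ∈ B, r v ^ 2 := h6
    _ ≤ (B.card : ℝ) * (E.card : ℝ) := by
        apply mul_le_mul_of_nonneg_left _ (by positivity)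
        rw [h2]
        apply sum_le_sum_of_subset_of_nonneg (filter_subset _ _)
        intro v _ _
        positivity

end Pool.Agent.R330.AF
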