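import Mathlib
import Pool.Agent.R330.AF.Sv
import Pool.Agent.H393R2.DC.Primes

/-!
# Many primes `ℓ ≡ 3 mod 8` such that no `4 h ℓ + 1` with small `h` is prime
-/

namespace Pool.Agent.R330.AF

open Finset Filter

/-- primes `ℓ` in `(z, y]`, `ℓ ≡ 3 mod 8`, with `4 h ℓ + 1` composite for all `1 ≤ h ≤ H` -/
def LL (H z y : ℕ) : Finset ℕ :=
  (Ioc z y).filter (fun l => l.Prime ∧ l % 8 = 3 ∧ ∀ h ∈ Icc 1 H, ¬ (4 * h * l + 1).Prime)

/-- bad primes -/
def TB (y h : ℕ) : Finset ℕ := (Icc 1 y).filter (fun n => (1 * n + 0).Prime ∧ (4 * h * n + 1).Prime)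

theorem TB_bound : ∃ C : ℝ, 0 < C ∧ ∀ y H : ℕ, 2 ≤ y →
    ((∑ h ∈ Icc 1 H, (TB y h).card : ℕ) : ℝ) ≤ C * H * (y / (Real.log y) ^ 2) := by
  obtain ⟨C1, hC1, hs⟩ := Pool.Agent.Helper112.E456.sieve_two
  obtain ⟨C2, hC2, hm⟩ := moment
  refine ⟨4 * C1 * C2, by positivity, fun y H hy => ?_⟩
  have hlog : 0 < Real.log y := Real.log_pos (by exact_mod_cast (by omega : 1 < y))
  push_cast
  have hb : ∀ h ∈ Icc 1 H, ((TB y h).card : ℝ) ≤ (4 * C1 * (y / (Real.log y) ^ 2)) * rt h ^ 6 := by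
    intro h hh
    rw [mem_Icc] at hh
    have hr := one_le_rt hh.1
    have h1 := hs 1 0 (4 * h) 1 y (by norm_num) (by omega) (by norm_num) (by simp) (by simp) hy
    have hD : 1 * (4 * h) * (((1 * 1 : ℕ) : ℤ) - ((4 * h * 0 : ℕ) : ℤ)).natAbs = 4 * h := by simp
    rw [hD] at h1
    have h4 : rt 4 = 2 := by
      unfold rt
      have : Nat.totient 4 = 2 := by decide
      rw [this]; norm_num
    have h2 : rt (4 * h) ≤ 2 * rt h := by
      rw [← h4]
      exact rt_mul_le (by norm_num) hh.1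
    have h3 : rt (4 * h) ^ 2 ≤ 4 * rt h ^ 6 := by
      have a1 := pow_le_pow_left₀ (rt_nonneg _) h2 2
      have a2 : rt h ^ 2 ≤ rt h ^ 6 := pow_le_pow_right₀ hr (by norm_num)
      calc rt (4 * h) ^ 2 ≤ (2 * rt h) ^ 2 := a1
        _ = 4 * rt h ^ 2 := by ring
        _ ≤ _ := by linarith
    calc ((TB y h).card : ℝ) ≤ C1 * rt (4 * h) ^ 2 * y / (Real.log y) ^ 2 := h1
      _ = C1 * (y / (Real.log y) ^ 2) * rt (4 * h) ^ 2 := by ring
      _ ≤ C1 * (y / (Real.log y) ^ 2) * (4 * rt h ^ 6) :=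
        mul_le_mul_of_nonneg_left h3 (by positivity)
      _ = _ := by ring
  refine (sum_le_sum hb).trans ?_
  rw [← mul_sum]
  calc (4 * C1 * (y / (Real.log y) ^ 2)) * ∑ h ∈ Icc 1 H, rt h ^ 6
      ≤ (4 * C1 * (y / (Real.log y) ^ 2)) * (C2 * H) :=
        mul_le_mul_of_nonneg_left (hm H) (by positivity)
    _ = _ := by ring

theorem cover (H z y : ℕ) :
    ((range (y + 1)).filter (fun q : ℕ => q.Prime ∧ (q : ZMod 8) = 3)) ⊆
      LL H z y ∪ ((Icc 1 z).filter Nat.Prime ∪ (Icc 1 H).biUnion (fun h => TB y h)) := by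
  intro l hl
  rw [mem_filter, mem_range] at hl
  obtain ⟨hly, hp, hm⟩ := hl
  have hm' : l % 8 = 3 := by
    have : (l : ZMod 8) = ((3 : ℕ) : ZMod 8) := by rw [hm]; norm_num
    rw [ZMod.natCast_eq_natCast_iff'] at this
    simpa using this
  rw [mem_union, mem_union]
  by_cases h1 : l ≤ z
  · right; left
    rw [mem_filter, mem_Icc]
    exact ⟨⟨hp.pos, h1⟩, hp⟩
  · by_cases h2 : ∀ h ∈ Icc 1 H, ¬ (4 * h * l + 1).Prime
    · left
      unfold LL
      rw [mem_filter, mem_Ioc]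
      exact ⟨⟨by omega, by omega⟩, hp, hm', h2⟩
    · right; right
      push Not at h2
      obtain ⟨h, hh, hq⟩ := h2
      rw [mem_biUnion]
      refine ⟨h, hh, ?_⟩
      unfold TB
      rw [mem_filter, mem_Icc]
      exact ⟨⟨hp.pos, by omega⟩, by simpa using hp, hq⟩

/-- primes up to `z` -/
theorem small_primes (z : ℕ) (hz : 2 ≤ z) :
    ((((Icc 1 z).filter Nat.Prime).card : ℕ) : ℝ) ≤
      3 * z / Real.log z + √(z : ℝ) := by
  have h1 : (Icc 1 z).filter Nat.Prime ⊆ (range (z + 1)).filter Nat.Prime := by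
    intro p hp
    rw [mem_filter, mem_Icc] at hp
    rw [mem_filter, mem_range]
    exact ⟨by omega, hp.2⟩
  have h2 : (((range (z + 1)).filter Nat.Prime).card) = Nat.primeCounting z := by
    rw [Nat.primeCounting, Nat.primeCounting', Nat.count_eq_card_filter_range]
  have h3 := Chebyshev.pi_le_log4_mul_div (x := (z : ℝ)) (by exact_mod_cast (by omega : 1 < z))
  rw [Nat.floor_natCast] at h3
  have h4 : (((Icc 1 z).filter Nat.Prime).card : ℝ) ≤ (Nat.primeCounting z : ℝ) := by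
    rw [← h2]
    exact_mod_cast card_le_card h1
  refine h4.trans (h3.trans ?_)
  have hlog : 0 < Real.log z := Real.log_pos (by exact_mod_cast (by omega : 1 < z))
  have e1 : Real.log √(z : ℝ) = Real.log z / 2 := Real.log_sqrt (by positivity)
  have e2 : Real.log 4 ≤ 3 / 2 := by
    have : Real.log 4 = 2 * Real.log 2 := by
      rw [← Real.log_rpow (by norm_num)]; norm_num
    rw [this]
    have := Real.log_two_lt_d9
    linarith
  rw [e1]
  have h5 : Real.log 4 * z / (Real.log z / 2) ≤ 3 * z / Real.log z := by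
    rw [div_le_div_iff₀ (by positivity) hlog]
    have hz0 : (0 : ℝ) ≤ z := by positivity
    nlinarith [mul_nonneg hz0 hlog.le]
  linarith

theorem LL_lower : ∃ c η δ : ℝ, 0 < c ∧ 0 < η ∧ η < 1 ∧ 0 < δ ∧ ∀ᶠ y : ℕ in atTop,
    c * (y / Real.log y) ≤ ((LL ⌊δ * Real.log y⌋₊ ⌊η * (y : ℝ)⌋₊ y).card : ℝ) := by
  have hu : IsUnit (3 : ZMod 8) := by
    have := (ZMod.isUnit_iff_coprime 3 8).2 (by norm_num)
    simpa using this
  obtain ⟨c0, hc0, N0, hN0⟩ := Pool.Agent.H393R2.DC.primes_lower 8 (3 : ZMod 8) hu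
  obtain ⟨C1, hC1, hTB⟩ := TB_bound
  set η : ℝ := min (1 / 2) (c0 / 48) with hη
  set δ : ℝ := c0 / (4 * C1) with hδ
  have hη0 : 0 < η := by rw [hη]; positivity
  have hη1 : η < 1 := lt_of_le_of_lt (min_le_left _ _) (by norm_num)
  have hηc : η ≤ c0 / 48 := min_le_right _ _
  have hδ0 : 0 < δ := by positivity
  refine ⟨c0 / 2, η, δ, by positivity, hη0, hη1, hδ0, ?_⟩
  have hcast : Tendsto (fun y : ℕ => (y : ℝ)) atTop atTop := tendsto_natCast_atTop_atTop
  -- √y ≤ ηy/2 i.e. z ≥ √y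
  have ev1 : ∀ᶠ y : ℕ in atTop, 16 / η ^ 2 ≤ (y : ℝ) := hcast.eventually_ge_atTop _
  have ev2 : ∀ᶠ y : ℕ in atTop, Real.log y ≤ (c0 / 8) * √(y : ℝ) := by
    have h1 : Tendsto (fun x : ℝ => Real.log x / x ^ ((1 : ℝ) / 2)) atTop (nhds 0) :=
      (isLittleO_log_rpow_atTop (by norm_num : (0 : ℝ) < 1 / 2)).tendsto_div_nhds_zero
    have h2 := (h1.comp hcast).eventually_lt_const (show (0 : ℝ) < c0 / 8 by positivity)
    filter_upwards [h2, eventually_ge_atTop 1] with y hy hy1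
    have hy0 : (0 : ℝ) < y := by exact_mod_cast hy1
    simp only [Function.comp] at hy
    rw [← Real.sqrt_eq_rpow, div_lt_iff₀ (Real.sqrt_pos.2 hy0)] at hy
    exact hy.le
  filter_upwards [ev1, ev2, eventually_ge_atTop (max N0 16)] with y h1 h2 h3
  have hyN : N0 ≤ y := (le_max_left _ _).trans h3
  have hy16 : 16 ≤ y := (le_max_right _ _).trans h3
  have hy0 : (0 : ℝ) < y := by positivity
  have hlog : 0 < Real.log y := Real.log_pos (by exact_mod_cast (by omega : 1 < y))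
  have hlow := hN0 y hyN
  set H := ⌊δ * Real.log y⌋₊ with hH
  set z := ⌊η * (y : ℝ)⌋₊ with hz
  have hcov := (card_le_card (cover H z y)).trans ((card_union_le _ _).trans
    (Nat.add_le_add_left (card_union_le _ _) _))
  have hcov2 : (((range (y + 1)).filter (fun q : ℕ => q.Prime ∧ (q : ZMod 8) = 3)).card : ℝ) ≤
      ((LL H z y).card : ℝ) + ((((Icc 1 z).filter Nat.Prime).card : ℝ) +
        ((∑ h ∈ Icc 1 H, (TB y h).card : ℕ) : ℝ)) := by
    have h4 : ((Icc 1 H).biUnion (fun h => TB y h)).card ≤ ∑ h ∈ Icc 1 H, (TB y h).card :=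
      card_biUnion_le
    exact_mod_cast hcov.trans (Nat.add_le_add_left (Nat.add_le_add_left h4 _) _)
  -- bad primes
  have hbad : ((∑ h ∈ Icc 1 H, (TB y h).card : ℕ) : ℝ) ≤ c0 / 4 * (y / Real.log y) := by
    refine (hTB y H (by omega)).trans ?_
    have hHle : (H : ℝ) ≤ δ * Real.log y := Nat.floor_le (by positivity)
    calc C1 * H * (y / (Real.log y) ^ 2) ≤ C1 * (δ * Real.log y) * (y / (Real.log y) ^ 2) := by
          apply mul_le_mul_of_nonneg_right _ (by positivity)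
          exact mul_le_mul_of_nonneg_left hHle hC1.le
      _ = c0 / 4 * (y / Real.log y) := by
          rw [hδ]; field_simp
  -- small primes
  have hsq : √(y : ℝ) * √(y : ℝ) = y := Real.mul_self_sqrt hy0.le
  have hsq4 : 4 / η ≤ √(y : ℝ) := by
    apply Real.le_sqrt_of_sq_le
    rw [div_pow]
    norm_num
    exact h1
  have hsq4' : 4 ≤ η * √(y : ℝ) := by
    rw [div_le_iff₀ hη0] at hsq4
    linarith
  have hsq1 : 1 ≤ √(y : ℝ) := by
    rw [Real.one_le_sqrt]; exact_mod_cast (by omega : 1 ≤ y)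
  have hzge : √(y : ℝ) ≤ z := by
    have h5 : η * (y : ℝ) < z + 1 := Nat.lt_floor_add_one _
    have h6 : 4 * √(y : ℝ) ≤ η * y := by
      calc 4 * √(y : ℝ) ≤ η * √(y : ℝ) * √(y : ℝ) :=
            mul_le_mul_of_nonneg_right hsq4' (Real.sqrt_nonneg _)
        _ = η * y := by rw [mul_assoc, hsq]
    linarith
  have hzle : (z : ℝ) ≤ η * y := Nat.floor_le (by positivity)
  have hz2 : 2 ≤ z := by
    have h5 : (4 : ℝ) ≤ √(y : ℝ) := by
      apply Real.le_sqrt_of_sq_le
      norm_num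
      exact_mod_cast hy16
    have : (4 : ℝ) ≤ z := h5.trans hzge
    have : 4 ≤ z := by exact_mod_cast this
    omega
  have hsmall : (((Icc 1 z).filter Nat.Prime).card : ℝ) ≤ c0 / 4 * (y / Real.log y) := by
    refine (small_primes z hz2).trans ?_
    have hlz : Real.log y / 2 ≤ Real.log z := by
      rw [← Real.log_sqrt hy0.le]
      exact Real.log_le_log (by linarith) hzge
    have h5 : 3 * (z : ℝ) / Real.log z ≤ c0 / 8 * (y / Real.log y) := by
      calc 3 * (z : ℝ) / Real.log z ≤ 3 * (η * y) / (Real.log y / 2) := by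
            apply div_le_div₀ (by positivity) (by linarith) (by positivity) hlz
        _ = 6 * η * (y / Real.log y) := by field_simp; ring
        _ ≤ c0 / 8 * (y / Real.log y) := by
            apply mul_le_mul_of_nonneg_right _ (by positivity)
            linarith
    have h6 : √(z : ℝ) ≤ c0 / 8 * (y / Real.log y) := by
      have h7 : √(z : ℝ) ≤ √(y : ℝ) := by
        apply Real.sqrt_le_sqrt
        calc (z : ℝ) ≤ η * y := hzle
          _ ≤ 1 * y := mul_le_mul_of_nonneg_right hη1.le hy0.le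
          _ = y := one_mul _
      refine h7.trans ?_
      rw [mul_div_assoc', le_div_iff₀ hlog]
      calc √(y : ℝ) * Real.log y ≤ √(y : ℝ) * ((c0 / 8) * √(y : ℝ)) :=
            mul_le_mul_of_nonneg_left h2 (Real.sqrt_nonneg _)
        _ = c0 / 8 * (√(y : ℝ) * √(y : ℝ)) := by ring
        _ = c0 / 8 * y := by rw [hsq]
    linarith
  have e : c0 * y / Real.log y = c0 * (y / Real.log y) := by ring
  rw [e] at hlow
  linarith

end Pool.Agent.R330.AF
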