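import Mathlib
import Pool.Agent.R330.AF.Fac
import Pool.Agent.R330.AF.Lset
import Pool.Agent.R330.AF.Col

/-!
# Many `n` with a quadruple for which all prime factors exceed `c √X log X`
-/

namespace Pool.Agent.R330.AF

open Finset Filter

/-- Cauchy-Schwarz for the number of values of a function. -/
theorem cauchy_gen {α : Type*} [DecidableEq α] (T : Finset α) (f : α → ℕ) :
    ((T.card : ℝ)) ^ 2 ≤ ((T.image f).card : ℝ) *
      (((T ×ˢ T).filter (fun p => f p.1 = f p.2)).card : ℝ) := by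
  classical
  set I := T.image f with hI
  set E := (T ×ˢ T).filter (fun p => f p.1 = f p.2) with hE
  have h1 : T.card = ∑ v ∈ I, (T.filter (fun p => f p = v)).card :=
    Finset.card_eq_sum_card_fiberwise (fun p hp => Finset.mem_image_of_mem _ hp)
  have h2 : E.card = ∑ v ∈ I, (T.filter (fun p => f p = v)).card ^ 2 := by
    have h3 : E.card = ∑ v ∈ I, (E.filter (fun p => f p.1 = v)).card :=
      Finset.card_eq_sum_card_fiberwise (fun p hp => by
        rw [hE, mem_coe, mem_filter, mem_product] at hp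
        exact Finset.mem_image_of_mem _ hp.1.1)
    rw [h3]
    apply Finset.sum_congr rfl
    intro v _
    rw [pow_two, ← Finset.card_product]
    congr 1
    ext p
    rw [hE]
    simp only [mem_filter, mem_product]
    constructor
    · rintro ⟨⟨⟨a, b⟩, c⟩, d⟩
      exact ⟨⟨a, d⟩, b, by rw [← c]; exact d⟩
    · rintro ⟨⟨a, b⟩, c, d⟩
      exact ⟨⟨⟨a, c⟩, by rw [b, d]⟩, b⟩
  have h4 := @sq_sum_le_card_mul_sum_sq ℕ ℝ _ _ _ _ I
    (fun v => ((T.filter (fun p => f p = v)).card : ℝ))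
  rw [h1, h2]
  push_cast
  exact h4

theorem pairs_sub (H z y : ℕ) :
    ((LL H z y ×ˢ Icc 1 y) ×ˢ (LL H z y ×ˢ Icc 1 y)).filter
      (fun p => V p.1.1 p.1.2 = V p.2.1 p.2.2) ⊆
    ((LL H z y ×ˢ Icc 1 y).image (fun x => (x, x)) ∪
      (Im φA (Nat.sqrt (6 * y) + 1) y ∪ Im φB (Nat.sqrt (6 * y) + 1) y)) ∪
      (Im φA (Nat.sqrt (6 * y) + 1) y ∪ Im φB (Nat.sqrt (6 * y) + 1) y).image Prod.swap := by
  rintro ⟨⟨l, w⟩, ⟨l', w'⟩⟩ hp
  rw [mem_filter, mem_product, mem_product, mem_product, mem_Icc, mem_Icc] at hp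
  simp only at hp
  obtain ⟨⟨⟨hl, hw⟩, hl', hw'⟩, hV⟩ := hp
  have hl0 := hl
  rw [LL, mem_filter, mem_Ioc] at hl hl'
  obtain ⟨⟨hlz, hly⟩, hlp, hlm, -⟩ := hl
  obtain ⟨⟨hlz', hly'⟩, hlp', hlm', -⟩ := hl'
  obtain ⟨i, rfl⟩ : ∃ i, l = 8 * i + 3 := ⟨l / 8, by omega⟩
  obtain ⟨j, rfl⟩ : ∃ j, l' = 8 * j + 3 := ⟨l' / 8, by omega⟩
  rw [mem_union, mem_union]
  rcases lt_trichotomy i j with h | h | h
  · right
    rw [mem_image]
    exact ⟨((8 * j + 3, w'), (8 * i + 3, w)), collision h hly' hlp' hlp hw.2 hV.symm, rfl⟩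
  · left; left
    subst h
    rw [mem_image]
    have hww : w = w' := by
      unfold V at hV
      have : w ^ 2 = w' ^ 2 := by omega
      exact Nat.pow_left_injective (by norm_num : 2 ≠ 0) this
    subst hww
    exact ⟨(8 * i + 3, w), mem_product.2 ⟨hl0, mem_Icc.2 hw⟩, rfl⟩
  · left; right
    exact collision h hly hlp hlp' hw'.2 hV

theorem pairs_card (H z y : ℕ) :
    (((LL H z y ×ˢ Icc 1 y) ×ˢ (LL H z y ×ˢ Icc 1 y)).filter
      (fun p => V p.1.1 p.1.2 = V p.2.1 p.2.2)).card ≤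
      (LL H z y).card * y + 4 * TN (Nat.sqrt (6 * y) + 1) y := by
  refine (card_le_card (pairs_sub H z y)).trans ?_
  refine (card_union_le _ _).trans ?_
  have h1 : ((LL H z y ×ˢ Icc 1 y).image (fun x => (x, x))).card ≤ (LL H z y).card * y := by
    refine card_image_le.trans ?_
    rw [card_product, Nat.card_Icc]
    simp
  have h2 := Im_card φA (Nat.sqrt (6 * y) + 1) y
  have h3 := Im_card φB (Nat.sqrt (6 * y) + 1) y
  have h4 := card_union_le (Im φA (Nat.sqrt (6 * y) + 1) y) (Im φB (Nat.sqrt (6 * y) + 1) y)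
  have h5 := card_union_le ((LL H z y ×ˢ Icc 1 y).image (fun x => (x, x)))
    (Im φA (Nat.sqrt (6 * y) + 1) y ∪ Im φB (Nat.sqrt (6 * y) + 1) y)
  have h6 : ((Im φA (Nat.sqrt (6 * y) + 1) y ∪ Im φB (Nat.sqrt (6 * y) + 1) y).image
    Prod.swap).card ≤ (Im φA (Nat.sqrt (6 * y) + 1) y ∪ Im φB (Nat.sqrt (6 * y) + 1) y).card :=
    card_image_le
  omega

/-- the values -/
theorem V_le {l w y : ℕ} (hl : l ≤ y) (hw : w ≤ y) : V l w ≤ 6 * y ^ 2 := by
  unfold V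
  have h1 : l ^ 2 ≤ y ^ 2 := Nat.pow_le_pow_left hl 2
  have h2 : w ^ 2 ≤ y ^ 2 := Nat.pow_le_pow_left hw 2
  have h3 : ((l - 1) / 2) * 2 ≤ l := by omega
  have h4 : 4 * ((l - 1) / 2) ^ 2 ≤ l ^ 2 := by
    calc 4 * ((l - 1) / 2) ^ 2 = (((l - 1) / 2) * 2) ^ 2 := by ring
      _ ≤ l ^ 2 := Nat.pow_le_pow_left h3 2
  omega

/-- **Number of values.** -/
theorem image_lower : ∃ c η δ : ℝ, 0 < c ∧ 0 < η ∧ 0 < δ ∧ ∀ᶠ y : ℕ in atTop,
    c * ((y : ℝ) ^ 2 / Real.log y) ≤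
      (((LL ⌊δ * Real.log y⌋₊ ⌊η * (y : ℝ)⌋₊ y ×ˢ Icc 1 y).image
        (fun p => V p.1 p.2)).card : ℝ) := by
  obtain ⟨c, η, δ, hc, hη, hη1, hδ, hL⟩ := LL_lower
  obtain ⟨C, hC, hT⟩ := TN_bound
  refine ⟨c ^ 2 / (4 + 4 * C), η, δ, by positivity, hη, hδ, ?_⟩
  have hcast : Tendsto (fun y : ℕ => (y : ℝ)) atTop atTop := tendsto_natCast_atTop_atTop
  have ev2 : ∀ᶠ y : ℕ in atTop, Real.log y ≤ √(y : ℝ) := by
    have h1 : Tendsto (fun x : ℝ => Real.log x / x ^ ((1 : ℝ) / 2)) atTop (nhds 0) :=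
      (isLittleO_log_rpow_atTop (by norm_num : (0 : ℝ) < 1 / 2)).tendsto_div_nhds_zero
    have h2 := (h1.comp hcast).eventually_lt_const (show (0 : ℝ) < 1 by norm_num)
    filter_upwards [h2, eventually_ge_atTop 1] with y hy hy1
    have hy0 : (0 : ℝ) < y := by exact_mod_cast hy1
    simp only [Function.comp] at hy
    rw [← Real.sqrt_eq_rpow, div_lt_iff₀ (Real.sqrt_pos.2 hy0), one_mul] at hy
    exact hy.le
  filter_upwards [hL, hT, ev2, eventually_ge_atTop 2] with y h1 h2 h3 h4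
  have hy0 : (0 : ℝ) < y := by positivity
  have hlog : 0 < Real.log y := Real.log_pos (by exact_mod_cast (by omega : 1 < y))
  set H := ⌊δ * Real.log y⌋₊
  set z := ⌊η * (y : ℝ)⌋₊
  set T := LL H z y ×ˢ Icc 1 y with hTdef
  have hcs := cauchy_gen T (fun p => V p.1 p.2)
  have hpc : (((T ×ˢ T).filter (fun p => V p.1.1 p.1.2 = V p.2.1 p.2.2)).card : ℝ) ≤
      ((LL H z y).card : ℝ) * y + 4 * TN (Nat.sqrt (6 * y) + 1) y := by
    exact_mod_cast pairs_card H z y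
  have hLup : ((LL H z y).card : ℝ) ≤ 4 * (y / Real.log y) := by
    have a1 : LL H z y ⊆ (Icc 1 y).filter Nat.Prime := by
      intro l hl
      rw [LL, mem_filter, mem_Ioc] at hl
      rw [mem_filter, mem_Icc]
      exact ⟨⟨hl.2.1.pos, hl.1.2⟩, hl.2.1⟩
    have a2 := small_primes y h4
    have a3 : ((LL H z y).card : ℝ) ≤ (((Icc 1 y).filter Nat.Prime).card : ℝ) := by
      exact_mod_cast card_le_card a1
    have a4 : √(y : ℝ) ≤ y / Real.log y := by
      rw [le_div_iff₀ hlog]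
      calc √(y : ℝ) * Real.log y ≤ √(y : ℝ) * √(y : ℝ) :=
            mul_le_mul_of_nonneg_left h3 (Real.sqrt_nonneg _)
        _ = y := Real.mul_self_sqrt hy0.le
    have a5 : 3 * (y : ℝ) / Real.log y = 3 * (y / Real.log y) := by ring
    linarith
  have hTc : (T.card : ℝ) = ((LL H z y).card : ℝ) * y := by
    rw [hTdef, card_product, Nat.card_Icc]
    push_cast
    simp
  have hE : (((T ×ˢ T).filter (fun p => V p.1.1 p.1.2 = V p.2.1 p.2.2)).card : ℝ) ≤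
      (4 + 4 * C) * ((y : ℝ) ^ 2 / Real.log y) := by
    have b1 : ((LL H z y).card : ℝ) * y ≤ 4 * ((y : ℝ) ^ 2 / Real.log y) := by
      calc ((LL H z y).card : ℝ) * y ≤ 4 * (y / Real.log y) * y :=
            mul_le_mul_of_nonneg_right hLup hy0.le
        _ = _ := by ring
    linarith
  have hTlow : c * ((y : ℝ) ^ 2 / Real.log y) ≤ T.card := by
    rw [hTc]
    calc c * ((y : ℝ) ^ 2 / Real.log y) = c * (y / Real.log y) * y := by ring
      _ ≤ _ := mul_le_mul_of_nonneg_right h1 hy0.le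
  set A : ℝ := (y : ℝ) ^ 2 / Real.log y with hA
  have hA0 : 0 < A := by rw [hA]; positivity
  have hsq : (c * A) ^ 2 ≤ ((T.image (fun p => V p.1 p.2)).card : ℝ) * ((4 + 4 * C) * A) := by
    calc (c * A) ^ 2 ≤ (T.card : ℝ) ^ 2 := pow_le_pow_left₀ (by positivity) hTlow 2
      _ ≤ _ := hcs
      _ ≤ _ := mul_le_mul_of_nonneg_left hE (by positivity)
  have hpos : 0 < (4 + 4 * C) * A := by positivity
  have : c ^ 2 / (4 + 4 * C) * A = (c * A) ^ 2 / ((4 + 4 * C) * A) := by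
    field_simp
  rw [this, div_le_iff₀ hpos]
  exact hsq

theorem main : ∃ c : ℝ, 0 < c ∧ ∃ X₀ : ℕ, ∀ X : ℕ, X₀ ≤ X →
    c * X / Real.log X ≤
      (Set.ncard {n : ℕ | n ≤ X ∧ Odd n ∧ ∃ x y z w : ℕ, n = x ^ 2 + y ^ 2 + z ^ 2 + 4 * w ^ 2 ∧
        ∀ q : ℕ, q.Prime → q ∣ 2 ^ x + 2 ^ y + 2 ^ z + 1 → c * √(X : ℝ) * Real.log X < q} : ℝ) := by
  obtain ⟨c1, η, δ, hc1, hη, hδ, hI⟩ := image_lower
  obtain ⟨Y0, hY0⟩ := eventually_atTop.1 hI
  refine ⟨min (c1 / 16) (δ * η / 3), by positivity, max 10000 (16 * (Y0 + 2) ^ 2), fun X hX => ?_⟩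
  set c := min (c1 / 16) (δ * η / 3) with hcdef
  have hcle1 : c ≤ c1 / 16 := min_le_left _ _
  have hcle2 : c ≤ δ * η / 3 := min_le_right _ _
  have hX1 : 10000 ≤ X := (le_max_left _ _).trans hX
  have hX2 : 16 * (Y0 + 2) ^ 2 ≤ X := (le_max_right _ _).trans hX
  have hXR : (10000 : ℝ) ≤ X := by exact_mod_cast hX1
  have hX0 : (0 : ℝ) < X := by linarith
  set y := Nat.sqrt (X / 6) with hy
  have hysq : y ^ 2 ≤ X / 6 := Nat.sqrt_le' _
  have hysq2 : X / 6 < (y + 1) ^ 2 := Nat.lt_succ_sqrt' _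
  have hyX : 6 * y ^ 2 ≤ X := by omega
  have hX6 : X < 6 * (y + 1) ^ 2 := by omega
  have hsX : √(X : ℝ) * √(X : ℝ) = X := Real.mul_self_sqrt hX0.le
  have hsX0 : 0 < √(X : ℝ) := Real.sqrt_pos.2 hX0
  have hsX100 : (100 : ℝ) ≤ √(X : ℝ) := by
    apply Real.le_sqrt_of_sq_le; linarith
  have hyR : √(X : ℝ) / 4 ≤ y := by
    have h1 : (X : ℝ) < 6 * ((y : ℝ) + 1) ^ 2 := by exact_mod_cast hX6
    by_contra hcon
    push Not at hcon
    have h2 : (y : ℝ) + 1 < √(X : ℝ) / 4 + 1 := by linarith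
    have h3 : √(X : ℝ) / 4 + 1 ≤ (26 / 100) * √(X : ℝ) := by linarith
    have h4 : ((y : ℝ) + 1) ^ 2 ≤ ((26 / 100) * √(X : ℝ)) ^ 2 :=
      pow_le_pow_left₀ (by positivity) (by linarith) 2
    have h5 : ((26 / 100) * √(X : ℝ)) ^ 2 = (676 / 10000) * X := by
      rw [mul_pow, Real.sq_sqrt hX0.le]; norm_num
    rw [h5] at h4
    linarith
  have hyY0 : Y0 ≤ y := by
    have h1 : ((Y0 : ℝ) + 2) ≤ √(X : ℝ) / 4 := by
      rw [le_div_iff₀ (by norm_num)]
      apply Real.le_sqrt_of_sq_le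
      have : (16 * ((Y0 : ℝ) + 2) ^ 2) ≤ X := by exact_mod_cast hX2
      calc (((Y0 : ℝ) + 2) * 4) ^ 2 = 16 * ((Y0 : ℝ) + 2) ^ 2 := by ring
        _ ≤ (X : ℝ) := this
    have h2 : (Y0 : ℝ) ≤ y := by linarith
    exact_mod_cast h2
  have hy25 : (25 : ℝ) ≤ y := by linarith
  have hy0 : (0 : ℝ) < y := by linarith
  have hlogy : 0 < Real.log y := Real.log_pos (by linarith)
  have hlogX : 0 < Real.log X := Real.log_pos (by linarith)
  have hyleX : (y : ℝ) ≤ X := by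
    have h1 : y ≤ y ^ 2 := Nat.le_self_pow (by norm_num) y
    have h2 : y ≤ X := by omega
    exact_mod_cast h2
  have hlogle : Real.log y ≤ Real.log X := Real.log_le_log hy0 hyleX
  have hlogge : Real.log X / 3 ≤ Real.log y := by
    have e1 : Real.log (√(X : ℝ) / 4) ≤ Real.log y := Real.log_le_log (by positivity) hyR
    have e2 : Real.log (√(X : ℝ) / 4) = Real.log X / 2 - Real.log 4 := by
      rw [Real.log_div (by positivity) (by norm_num), Real.log_sqrt hX0.le]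
    have e3 : 6 * Real.log 4 ≤ Real.log X := by
      have : 6 * Real.log 4 = Real.log (4 ^ 6) := by
        rw [Real.log_pow]; norm_num
      rw [this]
      apply Real.log_le_log (by norm_num)
      linarith
    linarith
  have hmain := hY0 y hyY0
  set H := ⌊δ * Real.log y⌋₊ with hH
  set z := ⌊η * (y : ℝ)⌋₊ with hz
  -- the set contains the image
  have hfin : {n : ℕ | n ≤ X ∧ Odd n ∧ ∃ x y z w : ℕ, n = x ^ 2 + y ^ 2 + z ^ 2 + 4 * w ^ 2 ∧
        ∀ q : ℕ, q.Prime → q ∣ 2 ^ x + 2 ^ y + 2 ^ z + 1 → c * √(X : ℝ) * Real.log X < q}.Finite :=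
    (Set.finite_Iic X).subset (fun n hn => hn.1)
  have hsub : (((LL H z y ×ˢ Icc 1 y).image (fun p => V p.1 p.2) : Finset ℕ) : Set ℕ) ⊆
      {n : ℕ | n ≤ X ∧ Odd n ∧ ∃ x y z w : ℕ, n = x ^ 2 + y ^ 2 + z ^ 2 + 4 * w ^ 2 ∧
        ∀ q : ℕ, q.Prime → q ∣ 2 ^ x + 2 ^ y + 2 ^ z + 1 → c * √(X : ℝ) * Real.log X < q} := by
    intro n hn
    rw [mem_coe, mem_image] at hn
    obtain ⟨⟨l, w⟩, hlw, rfl⟩ := hn
    rw [mem_product, mem_Icc] at hlw
    simp only at hlw ⊢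
    obtain ⟨hl, hw⟩ := hlw
    rw [LL, mem_filter, mem_Ioc] at hl
    obtain ⟨⟨hlz, hly⟩, hlp, hlm, hlh⟩ := hl
    obtain ⟨j, rfl⟩ : ∃ j, l = 8 * j + 3 := ⟨l / 8, by omega⟩
    have hj2 : (8 * j + 3 - 1) / 2 = 4 * j + 1 := by omega
    refine ⟨(V_le hly hw.2).trans hyX, ?_, 8 * j + 3, 4 * j + 1, 4 * j + 1, w, ?_, ?_⟩
    · unfold V
      rw [hj2]
      exact ⟨32 * j ^ 2 + 24 * j + 4 + (4 * j + 1) ^ 2 + 2 * w ^ 2, by ring⟩
    · unfold V
      rw [hj2]
    · intro q hq hd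
      obtain ⟨h, hh1, hqh⟩ := prime_factor hlp hq hd
      have hHh : H < h := by
        by_contra hcon
        push Not at hcon
        exact hlh h (mem_Icc.2 ⟨hh1, hcon⟩) (hqh ▸ hq)
      have h1 : δ * Real.log y < h := by
        have h2 : δ * Real.log y < H + 1 := Nat.lt_floor_add_one _
        have h3 : ((H + 1 : ℕ) : ℝ) ≤ h := by exact_mod_cast hHh
        push_cast at h3
        linarith
      have h2 : η * y < ((8 * j + 3 : ℕ) : ℝ) := by
        have h3 : η * y < z + 1 := Nat.lt_floor_add_one _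
        have h4 : ((z + 1 : ℕ) : ℝ) ≤ ((8 * j + 3 : ℕ) : ℝ) := by exact_mod_cast hlz
        push_cast at h4 ⊢
        linarith
      have h3 : (q : ℝ) = 4 * h * ((8 * j + 3 : ℕ) : ℝ) + 1 := by
        rw [hqh]; push_cast; ring
      have h4 : (δ * Real.log y) * (η * y) ≤ h * ((8 * j + 3 : ℕ) : ℝ) :=
        mul_le_mul h1.le h2.le (by positivity) (by positivity)
      have h5 : δ * (Real.log X / 3) * (η * (√(X : ℝ) / 4)) ≤ (δ * Real.log y) * (η * y) := by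
        apply mul_le_mul
        · exact mul_le_mul_of_nonneg_left hlogge hδ.le
        · exact mul_le_mul_of_nonneg_left hyR hη.le
        · positivity
        · positivity
      calc c * √(X : ℝ) * Real.log X ≤ δ * η / 3 * √(X : ℝ) * Real.log X := by
            apply mul_le_mul_of_nonneg_right _ hlogX.le
            exact mul_le_mul_of_nonneg_right hcle2 hsX0.le
        _ = 4 * (δ * (Real.log X / 3) * (η * (√(X : ℝ) / 4))) := by ring
        _ ≤ 4 * (h * ((8 * j + 3 : ℕ) : ℝ)) := by linarith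
        _ < q := by rw [h3]; linarith
  have hcard := Set.ncard_le_ncard hsub hfin
  rw [Set.ncard_coe_finset] at hcard
  have hcardR : (((LL H z y ×ˢ Icc 1 y).image (fun p => V p.1 p.2)).card : ℝ) ≤
    (Set.ncard {n : ℕ | n ≤ X ∧ Odd n ∧ ∃ x y z w : ℕ, n = x ^ 2 + y ^ 2 + z ^ 2 + 4 * w ^ 2 ∧
        ∀ q : ℕ, q.Prime → q ∣ 2 ^ x + 2 ^ y + 2 ^ z + 1 → c * √(X : ℝ) * Real.log X < q} : ℝ) := by
    exact_mod_cast hcard
  refine le_trans ?_ (hmain.trans hcardR)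
  have h1 : (X : ℝ) / 16 ≤ (y : ℝ) ^ 2 := by
    calc (X : ℝ) / 16 = (√(X : ℝ) / 4) ^ 2 := by rw [div_pow, Real.sq_sqrt hX0.le]; norm_num
      _ ≤ (y : ℝ) ^ 2 := pow_le_pow_left₀ (by positivity) hyR 2
  calc c * X / Real.log X ≤ c1 / 16 * X / Real.log X := by
        apply div_le_div_of_nonneg_right _ hlogX.le
        exact mul_le_mul_of_nonneg_right hcle1 hX0.le
    _ = c1 * (X / 16 / Real.log X) := by ring
    _ ≤ c1 * ((y : ℝ) ^ 2 / Real.log y) := by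
        apply mul_le_mul_of_nonneg_left _ hc1.le
        exact div_le_div₀ (by positivity) h1 hlogy hlogle

end Pool.Agent.R330.AF
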